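import Mathlib

set_option autoImplicit false

/-!
Definitions for finitary factor of iid 3-colourings of `ℤ^d`.
-/

namespace Pool.Agent.TH964.FC

open MeasureTheory
open scoped ENNReal

/-- The sites of `ℤ^d`. -/
abbrev Site (d : ℕ) : Type := Fin d → ℤ

/-- The translate of a field `y` by `a`. -/
def shift {d : ℕ} {S : Type*} (a : Site d) (y : Site d → S) : Site d → S := fun v => y (v + a)

/-- Proper 3-colourings of `ℤ^d`: sites at `ℓ¹` distance one have different colours. -/
def IsProper {d : ℕ} (x : Site d → Fin 3) : Prop :=
  ∀ u v : Site d, ∑ i, |u i - v i| = 1 → x u ≠ x v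

/-- The law of the iid field with one-site law `ν`. -/
noncomputable def iidLaw (d : ℕ) {T : Type*} [MeasurableSpace T] (ν : Measure T) :
    Measure (Site d → T) :=
  Measure.infinitePi (fun _ : Site d => ν)

/-- The labels of `y` in the ball of radius `r` around the origin determine the colour of `F y`
at the origin. -/
def Determines {d : ℕ} {T : Type*} (F : (Site d → T) → (Site d → Fin 3)) (y : Site d → T)
    (r : ℕ) : Prop :=
  ∀ y' : Site d → T, (∀ v : Site d, ∑ i, |v i| ≤ (r : ℤ) → y' v = y v) → F y' 0 = F y 0

/-- The coding radius of `F` at `y`: the least `r` such that the labels in the ball of radius `r`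
determine the colour of the origin, `⊤` if there is no such `r`. -/
noncomputable def codingRadius {d : ℕ} {T : Type*} (F : (Site d → T) → (Site d → Fin 3))
    (y : Site d → T) : ℕ∞ :=
  ⨅ (r : ℕ) (_ : Determines F y r), (r : ℕ∞)

/-- `F` is a finitary factor map from the iid field with one-site law `ν` to the proper
3-colourings of `ℤ^d`. -/
structure IsFfiidColouring {d : ℕ} {T : Type*} [MeasurableSpace T] (ν : Measure T)
    (F : (Site d → T) → (Site d → Fin 3)) : Prop where
  measurable : Measurable F
  equivariant : ∀ a : Site d, ∀ᵐ y ∂(iidLaw d ν), F (shift a y) = shift a (F y)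
  finitary : ∀ᵐ y ∂(iidLaw d ν), ∃ r : ℕ, Determines F y r
  proper : ∀ᵐ y ∂(iidLaw d ν), IsProper (F y)

end Pool.Agent.TH964.FC
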