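import Mathlib
import Pool.Agent.TH964.FC.Defs

set_option autoImplicit false

/-!
Moments of the coding radius, admissible exponents and the critical exponent.
-/

namespace Pool.Agent.TH964.FC

open MeasureTheory
open scoped ENNReal

/-- The coding radius of `F` has a finite `α`-moment: its `α`-th power is bounded by a measurable
function of finite integral. -/
def FiniteMoment {d : ℕ} {T : Type*} [MeasurableSpace T] (ν : Measure T)
    (F : (Site d → T) → (Site d → Fin 3)) (α : ℝ) : Prop :=
  ∃ g : (Site d → T) → ℝ≥0∞, Measurable g ∧
    (∀ y, ((codingRadius F y : ℕ∞) : ℝ≥0∞) ^ α ≤ g y) ∧ ∫⁻ y, g y ∂(iidLaw d ν) ≠ ⊤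

/-- The exponent `α > 0` is admissible in dimension `d`: some finitary factor of iid 3-colouring
of `ℤ^d`, with labels uniform on `[0,1]`, has a coding radius with finite `α`-moment. -/
def Admissible (d : ℕ) (α : ℝ) : Prop :=
  0 < α ∧ ∃ F : (Site d → unitInterval) → (Site d → Fin 3),
    IsFfiidColouring (volume : Measure unitInterval) F ∧
    FiniteMoment (volume : Measure unitInterval) F α

/-- The critical exponent: the supremum of the admissible exponents. -/
noncomputable def alphaStar (d : ℕ) : ℝ := sSup {α : ℝ | Admissible d α}

end Pool.Agent.TH964.FC
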