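import Mathlib

set_option autoImplicit false

/-!
The abstract core of the lower bound for the coding radius of a finitary 3-colouring: a family of
integer valued functions of two independent variables with approximate additivity and the right
residues modulo 2 and 3 cannot be bounded by the distance.
-/

namespace Pool.Agent.TH964.FC

open MeasureTheory
open scoped ENNReal

/-- A set of positive measure complement: finitely many bad sets of small total measure miss a
point. -/
lemma exists_good {α : Type*} [MeasurableSpace α] (μ : Measure α) [IsProbabilityMeasure μ]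
    (B : Set α) (h : μ B < 1) : ∃ x, x ∉ B := by
  by_contra hcon
  push Not at hcon
  have : B = Set.univ := Set.eq_univ_of_forall hcon
  rw [this, measure_univ] at h
  exact lt_irrefl _ h

/-- Any set of a product has a section of at most average measure. -/
lemma exists_section {α β : Type*} [MeasurableSpace α] [MeasurableSpace β] (μ : Measure α)
    (ν : Measure β) [IsProbabilityMeasure μ] [IsProbabilityMeasure ν] (E : Set (α × β)) :
    ∃ y, μ {x | (x, y) ∈ E} ≤ (μ.prod ν) E := by
  have hm := measurableSet_toMeasurable (μ.prod ν) E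
  have h1 : (μ.prod ν) (toMeasurable (μ.prod ν) E) =
      ∫⁻ y, μ ((fun x => (x, y)) ⁻¹' toMeasurable (μ.prod ν) E) ∂ν :=
    Measure.prod_apply_symm hm
  obtain ⟨y, hy⟩ := exists_le_lintegral (μ := ν)
    (f := fun y => μ ((fun x => (x, y)) ⁻¹' toMeasurable (μ.prod ν) E))
    (measurable_measure_prodMk_right hm).aemeasurable
  refine ⟨y, ?_⟩
  rw [← measure_toMeasurable E, h1]
  refine le_trans (measure_mono ?_) hy
  intro x hx
  exact subset_toMeasurable _ _ hx

/-- Pull back of a bad set under a measure preserving map. -/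
lemma pull {α β : Type*} [MeasurableSpace α] [MeasurableSpace β] {μ : Measure α}
    {ν : Measure β} {f : α → β} (hf : MeasurePreserving f μ ν) (B : Set β) :
    μ (f ⁻¹' B) ≤ ν B := by
  have := Measure.le_map_apply (μ := μ) hf.measurable.aemeasurable B
  rwa [hf.map_eq] at this

variable {Ω : Type*} [MeasurableSpace Ω]

lemma mp12 (P : Measure Ω) [IsProbabilityMeasure P] :
    MeasurePreserving (fun x : Ω × (Ω × Ω) => (x.1, x.2.1)) (P.prod (P.prod P)) (P.prod P) := by
  have := (MeasurePreserving.id P).prod (measurePreserving_fst (μ := P) (ν := P))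
  exact this

lemma mp23 (P : Measure Ω) [IsProbabilityMeasure P] :
    MeasurePreserving (fun x : Ω × (Ω × Ω) => x.2) (P.prod (P.prod P)) (P.prod P) :=
  measurePreserving_snd

lemma mp4a (P : Measure Ω) [IsProbabilityMeasure P] :
    MeasurePreserving (fun x : (Ω × Ω) × (Ω × Ω) => (x.1.1, (x.1.2, x.2.1)))
      ((P.prod P).prod (P.prod P)) (P.prod (P.prod P)) := by
  have h1 := (MeasurePreserving.id (P.prod P)).prod (measurePreserving_fst (μ := P) (ν := P))
  have h2 := measurePreserving_prodAssoc P P P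
  exact h2.comp h1

lemma mp4b (P : Measure Ω) [IsProbabilityMeasure P] :
    MeasurePreserving (fun x : (Ω × Ω) × (Ω × Ω) => (x.1.2, x.2))
      ((P.prod P).prod (P.prod P)) (P.prod (P.prod P)) := by
  have h1 := (measurePreserving_snd (μ := P) (ν := P)).prod (MeasurePreserving.id (P.prod P))
  exact h1

/-- The core contradiction. -/
theorem core (P : Measure Ω) [IsProbabilityMeasure P] (D : ℕ → Ω → Ω → ℤ) (c : Ω → ℤ) (p : ℕ)
    (δ : ℝ≥0∞) (hδ : 50 * δ < 1)
    (h3 : ∀ q₁ q₂, p ≤ q₁ → p ≤ q₂ → q₁ + q₂ ≤ 3 * p + 2 → (P.prod (P.prod P))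
      {x | D (q₁ + q₂) x.1 x.2.2 ≠ D q₁ x.1 x.2.1 + D q₂ x.2.1 x.2.2} ≤ 3 * δ)
    (hmod : ∀ q, p ≤ q → q ≤ 3 * p + 2 →
      (P.prod P) {x | ¬ (3 : ℤ) ∣ D q x.1 x.2 - (c x.2 - c x.1)} ≤ δ)
    (hpar : ∀ q, p ≤ q → q ≤ 3 * p + 2 → (P.prod P) {x | ¬ (2 : ℤ) ∣ D q x.1 x.2 - q} ≤ δ)
    (hbd : ∀ q, p ≤ q → q ≤ 3 * p + 2 → (P.prod P) {x | ¬ |D q x.1 x.2| ≤ q} ≤ δ) : False := by
  -- Step A
  have hA : ∀ m q₁ q₂, p ≤ q₁ → p ≤ q₂ → q₁ + q₂ + m ≤ 3 * p + 2 → (P.prod (P.prod P))
      {x | D (q₁ + m) x.1 x.2.1 - D q₁ x.1 x.2.1 ≠ D (q₂ + m) x.2.1 x.2.2 - D q₂ x.2.1 x.2.2}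
      ≤ 6 * δ := by
    intro m q₁ q₂ h1 h2 h12
    have e1 := h3 (q₁ + m) q₂ (by omega) h2 (by omega)
    have e2 := h3 q₁ (q₂ + m) h1 (by omega) (by omega)
    refine le_trans (measure_mono (t := _ ∪ _) ?_) (le_trans (measure_union_le _ _)
      (le_trans (add_le_add e1 e2) ?_))
    · intro x hx
      simp only [Set.mem_union, Set.mem_setOf_eq] at hx ⊢
      by_contra hcon
      push Not at hcon
      obtain ⟨c1, c2⟩ := hcon
      have e : q₁ + m + q₂ = q₁ + (q₂ + m) := by ring
      rw [e] at c1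
      apply hx
      linarith
    · rw [← add_mul]; norm_num
  -- Step B
  have hB : ∀ m, m ≤ p + 2 → ∃ κ : ℤ, (P.prod P)
      {x | D (p + m) x.1 x.2 - D p x.1 x.2 ≠ κ} ≤ 12 * δ := by
    intro m hm
    have e0 := hA m p p le_rfl le_rfl (by omega)
    have e1 := le_trans (pull (mp4a P) _) e0
    have e2 := le_trans (pull (mp4b P) _) e0
    obtain ⟨y, hy⟩ := exists_section (P.prod P) (P.prod P)
      {x : (Ω × Ω) × (Ω × Ω) | D (p + m) x.1.1 x.1.2 - D p x.1.1 x.1.2 ≠
        D (p + m) x.2.1 x.2.2 - D p x.2.1 x.2.2}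
    refine ⟨D (p + m) y.1 y.2 - D p y.1 y.2, le_trans hy ?_⟩
    refine le_trans (measure_mono (t := _ ∪ _) ?_) (le_trans (measure_union_le _ _)
      (le_trans (add_le_add e1 e2) ?_))
    · intro x hx
      simp only [Set.mem_union, Set.mem_setOf_eq, Set.mem_preimage] at hx ⊢
      by_contra hcon
      push Not at hcon
      exact hx (hcon.1.trans hcon.2)
    · rw [← add_mul]; norm_num
  choose! κ hκ using hB
  -- Step C
  have hC : ∀ m, m ≤ p + 1 → κ (m + 1) = κ m + κ 1 := by
    intro m hm
    have e1 := le_trans (pull (mp12 P) _) (hκ (m + 1) (by omega))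
    have e2 := le_trans (pull (mp12 P) _) (hκ m (by omega))
    have e3 := hA 1 (p + m) p (by omega) le_rfl (by omega)
    have e4 := le_trans (pull (mp23 P) _) (hκ 1 (by omega))
    obtain ⟨x, hx⟩ := exists_good (P.prod (P.prod P)) _
      (lt_of_le_of_lt (le_trans (measure_union_le _ _) (add_le_add (le_trans (measure_union_le _ _)
        (add_le_add (le_trans (measure_union_le _ _) (add_le_add e1 e2)) e3)) e4))
        (lt_of_le_of_lt (b := 50 * δ) (by
          rw [← add_mul, ← add_mul, ← add_mul]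
          gcongr
          norm_num) hδ))
    simp only [Set.mem_union, Set.mem_setOf_eq, Set.mem_preimage, not_or, not_not] at hx
    obtain ⟨⟨⟨x1, x2⟩, x3⟩, x4⟩ := hx
    have e : p + m + 1 = p + (m + 1) := by ring
    rw [e] at x3
    linarith
  have hlin : ∀ m, m ≤ p + 1 → κ m = m * κ 1 := by
    intro m
    induction m with
    | zero =>
      intro _
      have := hC 0 (by omega)
      simp at this ⊢
      linarith
    | succ m ih =>
      intro hm
      rw [hC m (by omega), ih (by omega)]
      push_cast; ring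
  -- Step D
  have hD : (3 : ℤ) ∣ κ 1 ∧ ¬ (2 : ℤ) ∣ κ 1 := by
    obtain ⟨x, hx⟩ := exists_good (P.prod P) _
      (lt_of_le_of_lt (le_trans (measure_union_le _ _) (add_le_add (le_trans (measure_union_le _ _)
        (add_le_add (le_trans (measure_union_le _ _) (add_le_add (le_trans (measure_union_le _ _)
        (add_le_add (hκ 1 (by omega)) (hmod p le_rfl (by omega)))) (hmod (p + 1) (by omega)
        (by omega)))) (hpar p le_rfl (by omega)))) (hpar (p + 1) (by omega) (by omega))))
        (lt_of_le_of_lt (b := 50 * δ) (by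
          have : 12 * δ + δ + δ + δ + δ = 16 * δ := by ring
          rw [this]
          gcongr
          norm_num) hδ))
    simp only [Set.mem_union, Set.mem_setOf_eq, not_or, not_not] at hx
    obtain ⟨⟨⟨⟨x1, x2⟩, x3⟩, x4⟩, x5⟩ := hx
    push_cast at x5
    constructor
    · omega
    · omega
  -- Step E
  obtain ⟨x, hx⟩ := exists_good (P.prod P) _
      (lt_of_le_of_lt (le_trans (measure_union_le _ _) (add_le_add (le_trans (measure_union_le _ _)
        (add_le_add (hκ (p + 1) (by omega)) (hbd p le_rfl (by omega)))) (hbd (p + (p + 1))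
        (by omega) (by omega))))
        (lt_of_le_of_lt (b := 50 * δ) (by
          have : 12 * δ + δ + δ = 14 * δ := by ring
          rw [this]
          gcongr
          norm_num) hδ))
  simp only [Set.mem_union, Set.mem_setOf_eq, not_or, not_not] at hx
  obtain ⟨⟨x1, x2⟩, x3⟩ := hx
  rw [hlin (p + 1) le_rfl] at x1
  have hk : 3 ≤ |κ 1| := by
    rcases abs_cases (κ 1) with h | h <;> omega
  have h1 : |((p + 1 : ℕ) : ℤ) * κ 1| ≤ 3 * p + 1 := by
    rw [← x1]
    refine le_trans (abs_sub _ _) ?_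
    push_cast at x3 ⊢
    linarith
  rw [abs_mul] at h1
  have h2 : |((p + 1 : ℕ) : ℤ)| = p + 1 := by
    rw [abs_of_nonneg (by positivity)]; push_cast; ring
  rw [h2] at h1
  nlinarith

end Pool.Agent.TH964.FC
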