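import Mathlib
import Pool.Agent.TH964.FC.Defs
import Pool.Agent.TH964.FC.Core

set_option autoImplicit false

/-!
Gluing independent copies of an iid field.
-/

namespace Pool.Agent.TH964.FC

open MeasureTheory
open scoped ENNReal

variable {d : ℕ} {T : Type*}

/-- The field equal to `y` on `S` and to `y'` off `S`. -/
noncomputable def glue (S : Set (Site d)) (y y' : Site d → T) : Site d → T := by
  classical
  exact fun v => if v ∈ S then y v else y' v

lemma glue_mem {S : Set (Site d)} {y y' : Site d → T} {v : Site d} (h : v ∈ S) :
    glue S y y' v = y v := by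
  classical
  simp [glue, h]

lemma glue_not_mem {S : Set (Site d)} {y y' : Site d → T} {v : Site d} (h : v ∉ S) :
    glue S y y' v = y' v := by
  classical
  simp [glue, h]

variable [MeasurableSpace T] (ν : Measure T) [IsProbabilityMeasure ν]

instance : IsProbabilityMeasure (iidLaw d ν) := by unfold iidLaw; infer_instance

lemma shift_mp (a : Site d) : MeasurePreserving (shift a) (iidLaw d ν) (iidLaw d ν) := by
  refine ⟨?_, ?_⟩
  · exact measurable_pi_lambda _ (fun v => measurable_pi_apply _)
  · exact Measure.map_infinitePi_infinitePi_of_inj (P := fun _ : Site d => ν)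
      (f := fun v : Site d => v + a) (add_left_injective a)

lemma measurable_glue (S : Set (Site d)) :
    Measurable (fun x : (Site d → T) × (Site d → T) => glue S x.1 x.2) := by
  refine measurable_pi_lambda _ (fun v => ?_)
  by_cases hv : v ∈ S
  · simp only [glue_mem hv]
    exact (measurable_pi_apply v).comp measurable_fst
  · simp only [glue_not_mem hv]
    exact (measurable_pi_apply v).comp measurable_snd

lemma glue_mp (S : Set (Site d)) :
    MeasurePreserving (fun x : (Site d → T) × (Site d → T) => glue S x.1 x.2)
      ((iidLaw d ν).prod (iidLaw d ν)) (iidLaw d ν) := by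
  classical
  refine ⟨measurable_glue S, ?_⟩
  refine Measure.eq_infinitePi _ (fun s t ht => ?_)
  rw [Measure.map_apply (measurable_glue S)
    (MeasurableSet.pi s.countable_toSet (fun i _ => ht i))]
  have : (fun x : (Site d → T) × (Site d → T) => glue S x.1 x.2) ⁻¹' (Set.pi s t) =
      (Set.pi (s.filter (· ∈ S)) t) ×ˢ (Set.pi (s.filter (· ∉ S)) t) := by
    ext x
    simp only [Set.mem_preimage, Set.mem_pi, Set.mem_prod, Finset.coe_filter]
    constructor
    · intro h
      refine ⟨fun i hi => ?_, fun i hi => ?_⟩
      · have := h i hi.1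
        rwa [glue_mem hi.2] at this
      · have := h i hi.1
        rwa [glue_not_mem hi.2] at this
    · rintro ⟨h1, h2⟩ i hi
      by_cases hS : i ∈ S
      · rw [glue_mem hS]; exact h1 i ⟨hi, hS⟩
      · rw [glue_not_mem hS]; exact h2 i ⟨hi, hS⟩
  rw [this, Measure.prod_prod, iidLaw, Measure.infinitePi_pi _ (fun i _ => ht i),
    Measure.infinitePi_pi _ (fun i _ => ht i)]
  exact Finset.prod_filter_mul_prod_filter_not s _ _

end Pool.Agent.TH964.FC
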