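import Mathlib
import Pool.Agent.TH964.FC.Defs

set_option autoImplicit false

/-!
The integer sup norm on `ℤ^d`.
-/

namespace Pool.Agent.TH964.FC

variable {d : ℕ}

/-- The sup norm. -/
def nd (v : Site d) : ℕ := Finset.univ.sup (fun i => (v i).natAbs)

lemma nd_le {v : Site d} {n : ℕ} : nd v ≤ n ↔ ∀ i, (v i).natAbs ≤ n := by
  simp [nd, Finset.sup_le_iff]

lemma natAbs_le_nd (v : Site d) (i : Fin d) : (v i).natAbs ≤ nd v := nd_le.1 le_rfl i

lemma nd_zero : nd (0 : Site d) = 0 := by
  have : nd (0 : Site d) ≤ 0 := nd_le.2 (fun i => by simp)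
  omega

lemma nd_add (u v : Site d) : nd (u + v) ≤ nd u + nd v := by
  rw [nd_le]
  intro i
  have h1 := natAbs_le_nd u i
  have h2 := natAbs_le_nd v i
  simp only [Pi.add_apply]
  omega

lemma nd_neg (v : Site d) : nd (-v) = nd v := by
  simp [nd]

lemma nd_comm (u v : Site d) : nd (u - v) = nd (v - u) := by
  rw [← nd_neg (u - v), neg_sub]

lemma nd_tri (u v w : Site d) : nd (u - w) ≤ nd (u - v) + nd (v - w) := by
  have := nd_add (u - v) (v - w)
  rwa [sub_add_sub_cancel] at this

lemma nd_le_add (u v : Site d) : nd u ≤ nd (u - v) + nd v := by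
  have := nd_add (u - v) v
  rwa [sub_add_cancel] at this

lemma nd_sub_le (u v : Site d) : nd (u - v) ≤ nd u + nd v := by
  have := nd_add u (-v)
  rw [nd_neg] at this
  rwa [← sub_eq_add_neg] at this

lemma nd_add_sub (u v a : Site d) : nd (u + a - (v + a)) = nd (u - v) := by
  rw [add_sub_add_right_eq_sub]

lemma l1_le (v : Site d) : ∑ i, |v i| ≤ d * nd v := by
  have : ∑ i, |v i| ≤ ∑ _i : Fin d, (nd v : ℤ) := by
    apply Finset.sum_le_sum
    intro i _
    have := natAbs_le_nd v i
    have h : |v i| = ((v i).natAbs : ℤ) := Int.abs_eq_natAbs _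
    rw [h]
    exact_mod_cast this
  simpa using this

lemma nd_le_one_of_l1 {u v : Site d} (h : ∑ i, |u i - v i| = 1) : nd (u - v) ≤ 1 := by
  rw [nd_le]
  intro i
  have h1 : |u i - v i| ≤ ∑ i, |u i - v i| := Finset.single_le_sum (f := fun i => |u i - v i|)
    (fun i _ => abs_nonneg _) (Finset.mem_univ i)
  rw [h, abs_le] at h1
  simp only [Pi.sub_apply]
  omega

/-- The parity of a site. -/
def par (v : Site d) : Bool := decide ((∑ i, v i) % 2 = 1)

lemma par_sub (u v w : Site d) : par (u - w) = (par (u - v) ^^ par (v - w)) := by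
  unfold par
  simp only [Pi.sub_apply, Finset.sum_sub_distrib]
  rcases Int.emod_two_eq_zero_or_one (∑ i, u i - ∑ i, v i) with h1 | h1 <;>
  rcases Int.emod_two_eq_zero_or_one (∑ i, v i - ∑ i, w i) with h2 | h2 <;>
  rcases Int.emod_two_eq_zero_or_one (∑ i, u i - ∑ i, w i) with h3 | h3 <;>
  simp [h1, h2, h3] <;> omega

lemma par_adj {u v : Site d} (h : ∑ i, |u i - v i| = 1) : par (u - v) = true := by
  unfold par
  simp only [Pi.sub_apply, decide_eq_true_eq]
  have h1 : ((∑ i, |u i - v i|) - ∑ i, (u i - v i)) % 2 = 0 := by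
    rw [← Finset.sum_sub_distrib]
    apply Int.emod_eq_zero_of_dvd
    apply Finset.dvd_sum
    intro i _
    rcases abs_cases (u i - v i) with h | h <;> omega
  rw [h] at h1
  omega

end Pool.Agent.TH964.FC
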