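import Mathlib
import Pool.Agent.TH964.FC.Norm

set_option autoImplicit false

/-!
The hierarchy of islands.
-/

namespace Pool.Agent.TH964.FC

variable {d : ℕ}

/-- The extension radius. -/
def eE : ℕ → ℕ
  | 0 => 0
  | k + 1 => 5 * eE k + 2 * ((k + 2) * (eE k + 6)) + 6

/-- The scale. -/
def eL (k : ℕ) : ℕ := (k + 2) * (eE k + 6)

/-- The buffer. -/
def eW (k : ℕ) : ℕ := 2 * eE k + 4

/-- The absorbing distance. -/
def eA (k : ℕ) : ℕ := eE k + 3

/-- The diameter bound. -/
def eD (k : ℕ) : ℕ := 2 * (eL k + eE k)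

lemma eE_succ (k : ℕ) : eE (k + 1) = eE k + (2 * eA k + eD k) := by
  show 5 * eE k + 2 * ((k + 2) * (eE k + 6)) + 6 = eE k + (2 * eA k + eD k)
  unfold eA eD eL
  ring

lemma eE_mono : Monotone eE := monotone_nat_of_le_succ (fun k => by rw [eE_succ]; omega)

lemma eL_mono : Monotone eL := by
  intro a b h
  unfold eL
  have := eE_mono h
  gcongr

lemma eW_mono : Monotone eW := by
  intro a b h
  unfold eW
  have := eE_mono h
  omega

lemma eW_le (k : ℕ) : eW k + 8 ≤ eL k := by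
  unfold eW eL
  nlinarith

variable {X : Type*} [LinearOrder X]

/-- The pre-islands. -/
def pre (y : Site d → ℕ → X) (k : ℕ) (s : Site d) : Set (Site d) :=
  {u | nd (s - u) + eW k ≤ eL k ∧ ∀ t, t ≠ s → nd (t - u) ≤ eL k + eW k → y t k < y s k}

/-- Absorb the members of `J` close to `A`, with a margin. -/
def absorb (J : Site d → Set (Site d)) (a : ℕ) (A : Set (Site d)) : Set (Site d) :=
  {v | v ∈ A ∨ ∃ t, (∃ u ∈ J t, nd (v - u) ≤ a) ∧ (∃ u ∈ J t, ∃ x ∈ A, nd (u - x) ≤ a)}

/-- Absorb the islands of the lower levels, from the top. -/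
def fold (I : ℕ → Site d → Set (Site d)) : ℕ → Set (Site d) → Set (Site d)
  | 0, A => A
  | n + 1, A => fold I n (absorb (I n) (eA n) A)

/-- The same with a bounded family. -/
def foldD : (n : ℕ) → (∀ j, j < n → Site d → Set (Site d)) → Set (Site d) → Set (Site d)
  | 0, _, A => A
  | n + 1, I, A => foldD n (fun j hj => I j (Nat.lt_succ_of_lt hj))
      (absorb (I n (Nat.lt_succ_self n)) (eA n) A)

lemma foldD_eq (I : ℕ → Site d → Set (Site d)) (n : ℕ) : ∀ A : Set (Site d),
    foldD n (fun j _ => I j) A = fold I n A := by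
  induction n with
  | zero => intro A; rfl
  | succ n ih => intro A; exact ih _

/-- The islands. -/
def isl (y : Site d → ℕ → X) (k : ℕ) (s : Site d) : Set (Site d) :=
  foldD k (fun j _ t => isl y j t) (pre y k s)
termination_by k

lemma isl_eq (y : Site d → ℕ → X) (k : ℕ) (s : Site d) :
    isl y k s = fold (isl y) k (pre y k s) := by
  rw [isl]
  exact foldD_eq (isl y) k _

lemma sub_absorb (J : Site d → Set (Site d)) (a : ℕ) (A : Set (Site d)) : A ⊆ absorb J a A :=
  fun _ h => Or.inl h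

lemma sub_fold (I : ℕ → Site d → Set (Site d)) (n : ℕ) : ∀ A, A ⊆ fold I n A := by
  induction n with
  | zero => intro A; exact le_rfl
  | succ n ih => intro A; exact (sub_absorb _ _ _).trans (ih _)

lemma sub_isl (y : Site d → ℕ → X) (k : ℕ) (s : Site d) : pre y k s ⊆ isl y k s := by
  rw [isl_eq]
  exact sub_fold _ _ _

lemma fold_ext (I : ℕ → Site d → Set (Site d)) (n : ℕ)
    (hI : ∀ j, j < n → ∀ t, ∀ u ∈ I j t, ∀ u' ∈ I j t, nd (u - u') ≤ eD j) :
    ∀ A, ∀ v ∈ fold I n A, ∃ x ∈ A, nd (v - x) ≤ eE n := by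
  induction n with
  | zero =>
    intro A v hv
    exact ⟨v, hv, by simp [nd_zero]⟩
  | succ n ih =>
    intro A v hv
    obtain ⟨x, hx, hvx⟩ := ih (fun j hj => hI j (Nat.lt_succ_of_lt hj)) _ v hv
    rw [eE_succ]
    rcases hx with hx | ⟨t, ⟨u, hu, hxu⟩, ⟨u', hu', x', hx', hux'⟩⟩
    · exact ⟨x, hx, by omega⟩
    · refine ⟨x', hx', ?_⟩
      have h1 := hI n (Nat.lt_succ_self n) t u hu u' hu'
      have h2 := nd_tri v x x'
      have h3 := nd_tri x u x'
      have h4 := nd_tri u u' x'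
      omega

lemma pre_diam {y : Site d → ℕ → X} {k : ℕ} {s u u' : Site d} (hu : u ∈ pre y k s)
    (hu' : u' ∈ pre y k s) : nd (u - u') ≤ 2 * eL k := by
  have h1 := hu.1
  have h2 := hu'.1
  have h3 := nd_tri u s u'
  rw [nd_comm u s] at h3
  omega

lemma isl_diam (y : Site d → ℕ → X) (k : ℕ) : ∀ s, ∀ u ∈ isl y k s, ∀ u' ∈ isl y k s,
    nd (u - u') ≤ eD k := by
  induction k using Nat.strong_induction_on with
  | _ k ih =>
    intro s u hu u' hu'
    rw [isl_eq] at hu hu'
    obtain ⟨x, hx, h1⟩ := fold_ext (isl y) k ih _ u hu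
    obtain ⟨x', hx', h2⟩ := fold_ext (isl y) k ih _ u' hu'
    have h3 := pre_diam hx hx'
    have h4 := nd_tri u x u'
    have h5 := nd_tri x x' u'
    rw [nd_comm x' u'] at h5
    unfold eD
    omega

lemma isl_ext (y : Site d → ℕ → X) (k : ℕ) (s : Site d) {v : Site d} (hv : v ∈ isl y k s) :
    ∃ x ∈ pre y k s, nd (v - x) ≤ eE k := by
  rw [isl_eq] at hv
  exact fold_ext (isl y) k (fun j _ => isl_diam y j) _ v hv

lemma pre_sep {y : Site d → ℕ → X} {k : ℕ} {s t u v : Site d} (hu : u ∈ pre y k s)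
    (hv : v ∈ pre y k t) (h : nd (u - v) ≤ 2 * eW k) : s = t := by
  by_contra hne
  have h1 := hu.2 t (Ne.symm hne) (by
    have := nd_tri t v u
    have h2 := hv.1
    rw [nd_comm v u] at this
    omega)
  have h2 := hv.2 s hne (by
    have := nd_tri s u v
    have h2 := hu.1
    omega)
  exact lt_irrefl _ (h1.trans h2)

lemma isl_sep (y : Site d → ℕ → X) (k : ℕ) {s t u v : Site d} (hu : u ∈ isl y k s)
    (hv : v ∈ isl y k t) (h : nd (u - v) ≤ 2 * eE k + 8) : s = t := by
  obtain ⟨x, hx, h1⟩ := isl_ext y k s hu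
  obtain ⟨x', hx', h2⟩ := isl_ext y k t hv
  apply pre_sep hx hx'
  have h3 := nd_tri x u x'
  have h4 := nd_tri u v x'
  rw [nd_comm x u] at h3
  unfold eW
  omega

lemma fold_dich (I : ℕ → Site d → Set (Site d))
    (hI : ∀ j, ∀ t, ∀ u ∈ I j t, ∀ u' ∈ I j t, nd (u - u') ≤ eD j)
    (hS : ∀ j, ∀ t t', ∀ u ∈ I j t, ∀ u' ∈ I j t', nd (u - u') ≤ 2 * eE j + 8 → t = t')
    (n : ℕ) : ∀ A, ∀ j, j < n → ∀ t,
      (∀ v, (∃ u ∈ I j t, nd (v - u) ≤ eA j) → v ∈ fold I n A) ∨
      (∀ u ∈ I j t, ∀ v ∈ fold I n A, 3 < nd (u - v)) := by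
  induction n with
  | zero => intro A j hj; omega
  | succ n ih =>
    intro A j hj t
    rcases Nat.lt_succ_iff_lt_or_eq.1 hj with hj | rfl
    · exact ih _ j hj t
    · by_cases hc : ∃ u ∈ I j t, ∃ x ∈ A, nd (u - x) ≤ eA j
      · left
        intro v hv
        exact sub_fold I j _ (Or.inr ⟨t, hv, hc⟩)
      · right
        intro u hu v hv
        push Not at hc
        obtain ⟨x, hx, hvx⟩ := fold_ext I j (fun i _ => hI i) _ v hv
        unfold eA at hc
        rcases hx with hx | ⟨t', ⟨u', hu', hxu⟩, ⟨u'', hu'', x', hx', hux'⟩⟩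
        · have h1 := hc u hu x hx
          have h2 := nd_tri u v x
          omega
        · have hne : ¬ nd (u - u') ≤ 2 * eE j + 8 := by
            intro hle
            have := hS j t t' u hu u' hu' hle
            subst this
            have h1 := hc u'' hu'' x' hx'
            unfold eA at hux'
            omega
          have h2 := nd_tri u v u'
          have h3 := nd_tri v x u'
          unfold eA at hxu
          omega

lemma isl_dich (y : Site d → ℕ → X) {j k : ℕ} (hj : j < k) (t s : Site d) :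
    (∀ v, (∃ u ∈ isl y j t, nd (v - u) ≤ eA j) → v ∈ isl y k s) ∨
      (∀ u ∈ isl y j t, ∀ v ∈ isl y k s, 3 < nd (u - v)) := by
  have := fold_dich (isl y) (fun j => isl_diam y j)
    (fun j t t' u hu u' hu' h => isl_sep y j hu hu' h) k (pre y k s) j hj t
  rw [← isl_eq] at this
  exact this

/-- If a lower island comes within distance `3` of a higher one, the `3`-neighbourhood of the
former is contained in the latter. -/
lemma isl_near (y : Site d → ℕ → X) {j k : ℕ} (hj : j < k) {t s u v x : Site d}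
    (hu : u ∈ isl y j t) (hv : v ∈ isl y k s) (huv : nd (u - v) ≤ 3) (hx : nd (x - u) ≤ 3) :
    x ∈ isl y k s := by
  rcases isl_dich y hj t s with h | h
  · exact h x ⟨u, hu, by unfold eA; omega⟩
  · have := h u hu v hv
    omega

/-! ### Dependence on the labels -/

lemma pre_corr {y y' : Site d → ℕ → X} {a : Site d} {R : ℕ}
    (h : ∀ v, nd v ≤ R → y' (v + a) = y v) (k : ℕ) (s u : Site d)
    (hu : nd u + (eL k + eW k) ≤ R) : u ∈ pre y k s ↔ u + a ∈ pre y' k (s + a) := by
  unfold pre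
  simp only [Set.mem_ofPred_eq, nd_add_sub]
  constructor
  · rintro ⟨h1, h2⟩
    refine ⟨h1, fun t ht htu => ?_⟩
    have h3 := h2 (t - a) (fun h => ht (by rw [← h]; simp)) (by
      rw [sub_sub, add_comm a u]; exact htu)
    have h4 := h (t - a) (by
      have := nd_le_add (t - a) u
      rw [sub_sub, add_comm a u] at this
      omega)
    have h5 := h s (by
      have := nd_le_add s u
      omega)
    rw [sub_add_cancel] at h4
    rw [h4, h5]
    exact h3
  · rintro ⟨h1, h2⟩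
    refine ⟨h1, fun t ht htu => ?_⟩
    have h3 := h2 (t + a) (fun h => ht (by simpa using h)) (by rw [nd_add_sub]; exact htu)
    have h4 := h t (by
      have := nd_le_add t u
      omega)
    have h5 := h s (by
      have := nd_le_add s u
      omega)
    rw [h4, h5] at h3
    exact h3

lemma absorb_corr {J J' : Site d → Set (Site d)} {A A' : Set (Site d)} {a : Site d} {R r q m D : ℕ}
    (hJ : ∀ u t, nd u + r ≤ R → (u ∈ J t ↔ u + a ∈ J' (t + a)))
    (hA : ∀ x, nd x + q ≤ R → (x ∈ A ↔ x + a ∈ A'))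
    (hD : ∀ t, ∀ u ∈ J t, ∀ u' ∈ J t, nd (u - u') ≤ D)
    (hD' : ∀ t, ∀ u ∈ J' t, ∀ u' ∈ J' t, nd (u - u') ≤ D)
    (hr : r ≤ q + m) (v : Site d) (hv : nd v + (q + (2 * m + D)) ≤ R) :
    v ∈ absorb J m A ↔ v + a ∈ absorb J' m A' := by
  unfold absorb
  simp only [Set.mem_ofPred_eq]
  rw [← hA v (by omega)]
  refine or_congr Iff.rfl ?_
  constructor
  · rintro ⟨t, ⟨u, hu, hvu⟩, ⟨u', hu', x, hx, hux⟩⟩
    have e1 := nd_le_add u v
    rw [nd_comm u v] at e1
    have e2 := nd_le_add u' u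
    have e3 := hD t u' hu' u hu
    have e4 := nd_le_add x u'
    rw [nd_comm x u'] at e4
    refine ⟨t + a, ⟨u + a, (hJ u t (by omega)).1 hu, by rwa [nd_add_sub]⟩, ⟨u' + a,
      (hJ u' t (by omega)).1 hu', x + a, (hA x (by omega)).1 hx, by rwa [nd_add_sub]⟩⟩
  · rintro ⟨t, ⟨u, hu, hvu⟩, ⟨u', hu', x, hx, hux⟩⟩
    have e0 : nd (u - a - v) ≤ m := by
      rw [sub_sub, add_comm a v, nd_comm]; exact hvu
    have e1 := nd_le_add (u - a) v
    have e3 := hD' t u' hu' u hu
    have e2 := nd_le_add (u' - a) (u - a)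
    rw [sub_sub_sub_cancel_right] at e2
    have e4 := nd_le_add (x - a) (u' - a)
    rw [sub_sub_sub_cancel_right, nd_comm x u'] at e4
    refine ⟨t - a, ⟨u - a, (hJ _ _ (by omega)).2 (by simpa using hu), by
      rw [nd_comm]; exact e0⟩, ⟨u' - a,
      (hJ _ _ (by omega)).2 (by simpa using hu'), x - a, (hA _ (by omega)).2 (by simpa using hx),
      by rwa [sub_sub_sub_cancel_right]⟩⟩

/-- The dependency radius. -/
def eR (k : ℕ) : ℕ := eL k + eW k + eE k

lemma fold_corr {I I' : ℕ → Site d → Set (Site d)} {a : Site d} {R : ℕ}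
    (hD : ∀ j t, ∀ u ∈ I j t, ∀ u' ∈ I j t, nd (u - u') ≤ eD j)
    (hD' : ∀ j t, ∀ u ∈ I' j t, ∀ u' ∈ I' j t, nd (u - u') ≤ eD j) (n : ℕ) :
    ∀ (A A' : Set (Site d)) (q : ℕ),
    (∀ j, j < n → ∀ u t, nd u + eR j ≤ R → (u ∈ I j t ↔ u + a ∈ I' j (t + a))) →
    (∀ x, nd x + q ≤ R → (x ∈ A ↔ x + a ∈ A')) →
    (∀ j, j < n → eR j ≤ q + eA j) →
    ∀ v, nd v + (q + eE n) ≤ R → (v ∈ fold I n A ↔ v + a ∈ fold I' n A') := by
  induction n with
  | zero =>
    intro A A' q _ hA _ v hv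
    exact hA v (by omega)
  | succ n ih =>
    intro A A' q hI hA hr v hv
    have hs := eE_succ n
    refine ih (absorb (I n) (eA n) A) (absorb (I' n) (eA n) A') (q + (2 * eA n + eD n))
      (fun j hj => hI j (Nat.lt_succ_of_lt hj)) (fun x hx => ?_) (fun j hj => ?_) v (by omega)
    · exact absorb_corr (hI n (Nat.lt_succ_self n)) hA (hD n) (hD' n)
        (hr n (Nat.lt_succ_self n)) x hx
    · have := hr j (Nat.lt_succ_of_lt hj)
      omega

lemma isl_corr {y y' : Site d → ℕ → X} {a : Site d} {R : ℕ}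
    (h : ∀ v, nd v ≤ R → y' (v + a) = y v) (k : ℕ) : ∀ u s, nd u + eR k ≤ R →
      (u ∈ isl y k s ↔ u + a ∈ isl y' k (s + a)) := by
  induction k using Nat.strong_induction_on with
  | _ k ih =>
    intro u s hu
    rw [isl_eq, isl_eq]
    refine fold_corr (isl_diam y) (isl_diam y') k _ _ (eL k + eW k) ih
      (fun x hx => pre_corr h k s x hx) (fun j hj => ?_) u (by unfold eR at hu; omega)
    have h1 := eL_mono hj.le
    have h2 := eW_mono hj.le
    unfold eR eA
    omega

lemma isl_shift (y : Site d → ℕ → X) (a : Site d) (k : ℕ) (s u : Site d) :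
    u ∈ isl (shift a y) k s ↔ u + a ∈ isl y k (s + a) :=
  isl_corr (y := shift a y) (y' := y) (R := nd u + eR k) (fun _ _ => rfl) k u s le_rfl

lemma isl_local {y y' : Site d → ℕ → X} {R : ℕ} (h : ∀ v, nd v ≤ R → y' v = y v) {k : ℕ}
    (u s : Site d) (hu : nd u + eR k ≤ R) : u ∈ isl y k s ↔ u ∈ isl y' k s := by
  have := isl_corr (y := y) (y' := y') (a := 0) (R := R)
    (fun v hv => by rw [add_zero]; exact h v hv) k u s hu
  rwa [add_zero, add_zero] at this

end Pool.Agent.TH964.FC
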