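import Mathlib
import Pool.Agent.TH964.FC.Isl

set_option autoImplicit false

/-!
The 3-colouring read off the hierarchy of islands.
-/

namespace Pool.Agent.TH964.FC

variable {d : ℕ} {X : Type*} [LinearOrder X]

/-- All the sites within distance `n` of `v` are in `A`. -/
def Deep (A : Set (Site d)) (v : Site d) (n : ℕ) : Prop := ∀ u, nd (u - v) ≤ n → u ∈ A

/-- `(k, s)` is the first island containing `v`. -/
def First (y : Site d → ℕ → X) (v : Site d) (k : ℕ) (s : Site d) : Prop :=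
  v ∈ isl y k s ∧ ∀ j, j < k → ∀ t, v ∉ isl y j t

/-- `(k', s')` is the next island containing `v`. -/
def Next (y : Site d → ℕ → X) (v : Site d) (k k' : ℕ) (s' : Site d) : Prop :=
  k < k' ∧ v ∈ isl y k' s' ∧ ∀ j, k < j → j < k' → ∀ t, v ∉ isl y j t

/-- The colours. -/
def c0 (b : Bool) : Fin 3 := if b then 1 else 0

/-- The colours of the outer layer. -/
def c1 (b : Bool) : Fin 3 := if b then 2 else 1

/-- The colours of the second layer. -/
def c2 (b : Bool) : Fin 3 := if b then 2 else 0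

/-- The site `v` gets the colour `c`. -/
def HasColor (y : Site d → ℕ → X) (v : Site d) (c : Fin 3) : Prop :=
  ∃ k s, First y v k s ∧
    ((Deep (isl y k s) v 2 ∧ c = c0 (par (v - s))) ∨
     (¬ Deep (isl y k s) v 2 ∧ ∃ k' s', Next y v k k' s' ∧
        ((par (s - s') = false ∧ c = c0 (par (v - s))) ∨
         (par (s - s') = true ∧ Deep (isl y k s) v 1 ∧ c = c2 (par (v - s))) ∨
         (par (s - s') = true ∧ ¬ Deep (isl y k s) v 1 ∧ c = c1 (par (v - s))))))

lemma Deep.mono {A : Set (Site d)} {v : Site d} {m n : ℕ} (h : Deep A v n) (hmn : m ≤ n) :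
    Deep A v m := fun u hu => h u (hu.trans hmn)

lemma Deep.mem {A : Set (Site d)} {v : Site d} {n : ℕ} (h : Deep A v n) : v ∈ A :=
  h v (by simp [nd_zero])

lemma isl_unique {y : Site d → ℕ → X} {v : Site d} {k : ℕ} {s t : Site d} (hs : v ∈ isl y k s)
    (ht : v ∈ isl y k t) : s = t :=
  isl_sep y k hs ht (by simp [nd_zero])

lemma First.unique {y : Site d → ℕ → X} {v : Site d} {k l : ℕ} {s t : Site d}
    (h1 : First y v k s) (h2 : First y v l t) : k = l ∧ s = t := by
  have hk : k = l := by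
    rcases lt_trichotomy k l with h | h | h
    · exact absurd h1.1 (h2.2 k h s)
    · exact h
    · exact absurd h2.1 (h1.2 l h t)
  subst hk
  exact ⟨rfl, isl_unique h1.1 h2.1⟩

/-- Adjacent sites with the same first island have the same next island. -/
lemma Next.unique {y : Site d → ℕ → X} {u v : Site d} {k l m : ℕ} {r s t : Site d}
    (hu : u ∈ isl y k r) (hv : v ∈ isl y k r) (huv : nd (u - v) ≤ 1)
    (h1 : Next y u k l s) (h2 : Next y v k m t) : l = m ∧ s = t := by
  have hv1 : v ∈ isl y l s := isl_near y h1.1 hu h1.2.1 (by simp [nd_zero])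
    (by rw [nd_comm]; omega)
  have hu1 : u ∈ isl y m t := isl_near y h2.1 hv h2.2.1 (by simp [nd_zero]) (by omega)
  have hl : l = m := by
    rcases lt_trichotomy l m with h | h | h
    · exact absurd hv1 (h2.2.2 l h1.1 h s)
    · exact h
    · exact absurd hu1 (h1.2.2 m h2.1 h t)
  subst hl
  exact ⟨rfl, isl_unique hv1 h2.2.1⟩

lemma HasColor.unique {y : Site d → ℕ → X} {v : Site d} {c c' : Fin 3}
    (h1 : HasColor y v c) (h2 : HasColor y v c') : c = c' := by
  obtain ⟨k, s, hf, h⟩ := h1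
  obtain ⟨k₂, s₂, hf₂, h₂⟩ := h2
  obtain ⟨rfl, rfl⟩ := hf.unique hf₂
  rcases h with ⟨hd, rfl⟩ | ⟨hd, k', s', hn, h⟩
  · rcases h₂ with ⟨_, rfl⟩ | ⟨hd2, _⟩
    · rfl
    · exact absurd hd hd2
  · rcases h₂ with ⟨hd2, _⟩ | ⟨_, k₂', s₂', hn₂, h₂⟩
    · exact absurd hd2 hd
    · obtain ⟨rfl, rfl⟩ := Next.unique hf.1 hf.1 (by simp [nd_zero]) hn hn₂
      rcases h with ⟨h, rfl⟩ | ⟨h, h', rfl⟩ | ⟨h, h', rfl⟩ <;>
      rcases h₂ with ⟨g, rfl⟩ | ⟨g, g', rfl⟩ | ⟨g, g', rfl⟩ <;>
      first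
        | rfl
        | (rw [h] at g; exact absurd g (by decide))
        | exact absurd h' g'
        | exact absurd g' h'

lemma HasColor.exists_of_deep {y : Site d → ℕ → X} {v : Site d} {K : ℕ} {s : Site d}
    (h : Deep (isl y K s) v 2) : ∃ c, HasColor y v c := by
  classical
  have h1 : ∃ k, ∃ t, v ∈ isl y k t := ⟨K, s, h.mem⟩
  obtain ⟨t, ht⟩ := Nat.find_spec h1
  set k := Nat.find h1 with hk
  have hkK : k ≤ K := Nat.find_min' h1 ⟨s, h.mem⟩
  have hf : First y v k t := ⟨ht, fun j hj t' ht' => Nat.find_min h1 hj ⟨t', ht'⟩⟩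
  by_cases hd : Deep (isl y k t) v 2
  · exact ⟨_, k, t, hf, Or.inl ⟨hd, rfl⟩⟩
  · have hlt : k < K := by
      rcases lt_or_eq_of_le hkK with h' | h'
      · exact h'
      · exfalso
        rw [h'] at ht hd
        have := isl_unique ht h.mem
        subst this
        exact hd h
    have h2 : ∃ k', k < k' ∧ ∃ t, v ∈ isl y k' t := ⟨K, hlt, s, h.mem⟩
    obtain ⟨hk', t', ht'⟩ := Nat.find_spec h2
    have hn : Next y v k (Nat.find h2) t' :=
      ⟨hk', ht', fun j hj1 hj2 t'' ht'' => Nat.find_min h2 hj2 ⟨hj1, t'', ht''⟩⟩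
    cases hp : par (t - t') with
    | false => exact ⟨_, k, t, hf, Or.inr ⟨hd, _, t', hn, Or.inl ⟨hp, rfl⟩⟩⟩
    | true =>
      by_cases hd1 : Deep (isl y k t) v 1
      · exact ⟨_, k, t, hf, Or.inr ⟨hd, _, t', hn, Or.inr (Or.inl ⟨hp, hd1, rfl⟩)⟩⟩
      · exact ⟨_, k, t, hf, Or.inr ⟨hd, _, t', hn, Or.inr (Or.inr ⟨hp, hd1, rfl⟩)⟩⟩

lemma c0_ne (b : Bool) : c0 b ≠ c0 (!b) := by cases b <;> decide
lemma c1_ne (b : Bool) : c1 b ≠ c1 (!b) := by cases b <;> decide
lemma c2_ne (b : Bool) : c2 b ≠ c2 (!b) := by cases b <;> decide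
lemma c0_ne_c2 (b : Bool) : c0 b ≠ c2 (!b) := by cases b <;> decide
lemma c1_ne_c2 (b : Bool) : c1 b ≠ c2 (!b) := by cases b <;> decide
lemma c1_ne_c0 (b : Bool) : c1 b ≠ c0 b := by cases b <;> decide

/-- The case of two different first islands. -/
lemma proper_lt {y : Site d → ℕ → X} {u v : Site d} (huv : nd (u - v) ≤ 1)
    (hp : par (u - v) = true) {k l : ℕ} {s t : Site d} (hu : First y u k s) (hv : First y v l t)
    (hkl : k < l) {c c' : Fin 3} (hc : HasColor y u c) (hc' : HasColor y v c') : c ≠ c' := by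
  have hd : Deep (isl y l t) v 2 := by
    intro x hx
    have h1 := nd_tri x v u
    rw [nd_comm v u] at h1
    exact isl_near y hkl hu.1 hv.1 (by omega) (by omega)
  have hnd : ¬ Deep (isl y k s) u 1 := fun h =>
    hv.2 k hkl s (h v (by rw [nd_comm]; exact huv))
  have hul : u ∈ isl y l t := isl_near y hkl hu.1 hv.1 (by omega) (by simp [nd_zero])
  have e1 := par_sub u v t
  have e2 := par_sub u s t
  rw [hp] at e1
  obtain ⟨k₂, s₂, hf, h⟩ := hc
  obtain ⟨rfl, rfl⟩ := hu.unique hf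
  obtain ⟨l₂, t₂, hf', h'⟩ := hc'
  obtain ⟨rfl, rfl⟩ := hv.unique hf'
  rcases h' with ⟨_, rfl⟩ | ⟨hn, _⟩
  swap
  · exact absurd hd hn
  rcases h with ⟨hn, _⟩ | ⟨_, k', s', hn, h⟩
  · exact absurd (hn.mono (by norm_num)) hnd
  have hvk' : v ∈ isl y k' s' := isl_near y hn.1 hu.1 hn.2.1 (by simp [nd_zero])
    (by rw [nd_comm]; omega)
  have hk' : k' = l := by
    rcases lt_trichotomy k' l with h | h | h
    · exact absurd hvk' (hv.2 k' h s')
    · exact h
    · exact absurd hul (hn.2.2 l hkl h t)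
  subst hk'
  have : s' = t := isl_unique hvk' hv.1
  subst this
  rcases h with ⟨h, rfl⟩ | ⟨_, h, _⟩ | ⟨h, _, rfl⟩
  · rw [h] at e2
    have : par (u - s) = !par (v - s') := by
      rw [e2] at e1
      simpa using e1
    rw [this]
    exact (c0_ne _).symm
  · exact absurd h hnd
  · rw [h] at e2
    have : par (u - s) = par (v - s') := by
      rw [e2] at e1
      simpa using e1
    rw [this]
    exact c1_ne_c0 _

/-- The case of the same first island. -/
lemma proper_eq {y : Site d → ℕ → X} {u v : Site d} (huv : nd (u - v) ≤ 1)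
    (hp : par (u - v) = true) {k : ℕ} {s t : Site d} (hu : First y u k s) (hv : First y v k t)
    {c c' : Fin 3} (hc : HasColor y u c) (hc' : HasColor y v c') : c ≠ c' := by
  have : s = t := isl_sep y k hu.1 hv.1 (by omega)
  subst this
  have e1 := par_sub u v s
  rw [hp, Bool.true_xor] at e1
  have e2 : par (v - s) = !par (u - s) := by rw [e1, Bool.not_not]
  obtain ⟨k₂, s₂, hf, h⟩ := hc
  obtain ⟨rfl, rfl⟩ := hu.unique hf
  obtain ⟨l₂, t₂, hf', h'⟩ := hc'
  obtain ⟨rfl, rfl⟩ := hv.unique hf'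
  rw [e2] at h'
  have n1 : Deep (isl y k s) u 2 → Deep (isl y k s) v 1 := by
    intro h x hx
    apply h
    have h1 := nd_tri x v u
    rw [nd_comm v u] at h1
    omega
  have n2 : Deep (isl y k s) v 2 → Deep (isl y k s) u 1 := by
    intro h x hx
    apply h
    have h1 := nd_tri x u v
    omega
  rcases h with ⟨hd, rfl⟩ | ⟨hd, k', s', hn, h⟩
  · rcases h' with ⟨_, rfl⟩ | ⟨_, k'', s'', hn', h'⟩
    · exact c0_ne _
    · rcases h' with ⟨_, rfl⟩ | ⟨_, _, rfl⟩ | ⟨_, h', rfl⟩
      · exact c0_ne _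
      · exact c0_ne_c2 _
      · exact absurd (n1 hd) h'
  · rcases h' with ⟨hd', rfl⟩ | ⟨_, k'', s'', hn', h'⟩
    · rcases h with ⟨_, rfl⟩ | ⟨_, _, rfl⟩ | ⟨_, h, rfl⟩
      · exact c0_ne _
      · have := c0_ne_c2 (!par (u - s))
        rw [Bool.not_not] at this
        exact this.symm
      · exact absurd (n2 hd') h
    · obtain ⟨rfl, rfl⟩ := Next.unique hu.1 hv.1 huv hn hn'
      rcases h with ⟨h, rfl⟩ | ⟨h, g, rfl⟩ | ⟨h, g, rfl⟩ <;>
      rcases h' with ⟨h', rfl⟩ | ⟨h', g', rfl⟩ | ⟨h', g', rfl⟩ <;>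
      first
        | (rw [h] at h'; exact absurd h' (by decide))
        | exact c0_ne _
        | exact c1_ne _
        | exact c2_ne _
        | exact c1_ne_c2 _
        | (have := c1_ne_c2 (!par (u - s)); rw [Bool.not_not] at this; exact this.symm)

theorem proper_aux {y : Site d → ℕ → X} {u v : Site d} (huv : nd (u - v) ≤ 1)
    (hp : par (u - v) = true) {c c' : Fin 3} (hc : HasColor y u c) (hc' : HasColor y v c') :
    c ≠ c' := by
  obtain ⟨k, s, hf, _⟩ := id hc
  obtain ⟨l, t, hf', _⟩ := id hc'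
  rcases lt_trichotomy k l with h | h | h
  · exact proper_lt huv hp hf hf' h hc hc'
  · subst h
    exact proper_eq huv hp hf hf' hc hc'
  · have h1 : nd (v - u) ≤ 1 := by rw [nd_comm]; exact huv
    have h2 : par (v - u) = true := by
      have := par_sub u v u
      rw [hp, sub_self] at this
      have h0 : par (0 : Site d) = false := by simp [par]
      rw [h0] at this
      simpa using this.symm
    exact (proper_lt h1 h2 hf' hf h hc' hc).symm

/-! ### Equivariance and locality -/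

lemma deep_shift (y : Site d → ℕ → X) (a : Site d) (k : ℕ) (s v : Site d) (n : ℕ) :
    Deep (isl (shift a y) k s) v n ↔ Deep (isl y k (s + a)) (v + a) n := by
  unfold Deep
  constructor
  · intro h u hu
    have := (isl_shift y a k s (u - a)).1 (h (u - a) (by rwa [sub_sub, add_comm a v]))
    simpa using this
  · intro h u hu
    exact (isl_shift y a k s u).2 (h (u + a) (by rwa [nd_add_sub]))

lemma notin_shift {y : Site d → ℕ → X} {a v : Site d} {j : ℕ}
    (h : ∀ t, v ∉ isl (shift a y) j t) : ∀ t, v + a ∉ isl y j t := by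
  intro t ht
  apply h (t - a)
  rw [isl_shift]
  simpa using ht

lemma hasColor_shift_mp {y : Site d → ℕ → X} {a v : Site d} {c : Fin 3}
    (h : HasColor (shift a y) v c) : HasColor y (v + a) c := by
  obtain ⟨k, s, hf, h⟩ := h
  refine ⟨k, s + a, ⟨(isl_shift y a k s v).1 hf.1, fun j hj => notin_shift (hf.2 j hj)⟩, ?_⟩
  rw [deep_shift] at h
  have e : v + a - (s + a) = v - s := add_sub_add_right_eq_sub v s a
  rw [e]
  rcases h with h | ⟨hd, k', s', hn, h⟩
  · exact Or.inl h
  · refine Or.inr ⟨hd, k', s' + a, ⟨hn.1, (isl_shift y a k' s' v).1 hn.2.1,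
      fun j h1 h2 => notin_shift (hn.2.2 j h1 h2)⟩, ?_⟩
    have e' : s + a - (s' + a) = s - s' := add_sub_add_right_eq_sub s s' a
    rw [e']
    rw [deep_shift] at h
    exact h

lemma hasColor_shift (y : Site d → ℕ → X) (a v : Site d) (c : Fin 3) :
    HasColor (shift a y) v c ↔ HasColor y (v + a) c := by
  refine ⟨hasColor_shift_mp, fun h => ?_⟩
  have h1 : y = shift (-a) (shift a y) := by
    funext w; simp [shift]
  rw [h1] at h
  have := hasColor_shift_mp h
  simpa using this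

/-- The certificate. -/
def Cert (z : Site d → X) (L w : ℕ) : Prop :=
  ∃ s, nd s + w + 2 ≤ L ∧ ∀ t, t ≠ s → nd t ≤ L + w + 2 → z t < z s

lemma Cert.deep {y : Site d → ℕ → X} {K : ℕ} (h : Cert (fun v => y v K) (eL K) (eW K)) :
    ∃ s, Deep (isl y K s) 0 2 := by
  obtain ⟨s, h1, h2⟩ := h
  refine ⟨s, fun u hu => sub_isl y K s ⟨?_, fun t ht htu => h2 t ht ?_⟩⟩
  · rw [sub_zero] at hu
    have := nd_sub_le s u
    omega
  · rw [sub_zero] at hu
    have := nd_le_add t u
    omega

lemma eR_mono : Monotone eR := by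
  intro a b h
  unfold eR
  have h1 := eL_mono h
  have h2 := eW_mono h
  have h3 := eE_mono h
  omega

lemma hasColor_local {y y' : Site d → ℕ → X} {K : ℕ} (h : ∀ v, nd v ≤ eR K + 2 → y' v = y v)
    {s₀ : Site d} (hs₀ : Deep (isl y K s₀) 0 2) {c : Fin 3} (hc : HasColor y 0 c) :
    HasColor y' 0 c := by
  have hloc : ∀ k, k ≤ K → ∀ u s, nd u ≤ 2 → (u ∈ isl y k s ↔ u ∈ isl y' k s) := by
    intro k hk u s hu
    have := eR_mono hk
    exact isl_local h u s (by omega)
  have hdeep : ∀ k, k ≤ K → ∀ s n, n ≤ 2 → (Deep (isl y k s) 0 n ↔ Deep (isl y' k s) 0 n) := by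
    intro k hk s n hn
    unfold Deep
    refine forall_congr' (fun u => ?_)
    rw [sub_zero]
    exact ⟨fun h h' => (hloc k hk u s (by omega)).1 (h h'),
      fun h h' => (hloc k hk u s (by omega)).2 (h h')⟩
  have h00 : nd (0 : Site d) ≤ 2 := by rw [nd_zero]; omega
  obtain ⟨k, s, hf, hc⟩ := hc
  have hkK : k ≤ K := by
    by_contra hcon
    exact hf.2 K (by omega) s₀ hs₀.mem
  refine ⟨k, s, ⟨(hloc k hkK 0 s h00).1 hf.1, fun j hj t ht => hf.2 j hj t
    ((hloc j (by omega) 0 t h00).2 ht)⟩, ?_⟩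
  rw [← hdeep k hkK s 2 le_rfl, ← hdeep k hkK s 1 (by norm_num)]
  rcases hc with hc | ⟨hd, k', s', hn, hc⟩
  · exact Or.inl hc
  · have hlt : k < K := by
      rcases lt_or_eq_of_le hkK with h' | h'
      · exact h'
      · exfalso
        subst h'
        have := isl_unique hf.1 hs₀.mem
        subst this
        exact hd hs₀
    have hk'K : k' ≤ K := by
      by_contra hcon
      exact hn.2.2 K hlt (by omega) s₀ hs₀.mem
    exact Or.inr ⟨hd, k', s', ⟨hn.1, (hloc k' hk'K 0 s' h00).1 hn.2.1,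
      fun j h1 h2 t ht => hn.2.2 j h1 h2 t ((hloc j (by omega) 0 t h00).2 ht)⟩, hc⟩

/-- The colouring. -/
noncomputable def col (y : Site d → ℕ → X) (v : Site d) : Fin 3 := by
  classical
  exact if HasColor y v 1 then 1 else if HasColor y v 2 then 2 else 0

lemma col_eq {y : Site d → ℕ → X} {v : Site d} {c : Fin 3} (h : HasColor y v c) :
    col y v = c := by
  classical
  unfold col
  have key : ∀ c', HasColor y v c' ↔ c' = c := fun c' =>
    ⟨fun h' => h'.unique h, fun h' => by rw [h']; exact h⟩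
  simp only [key]
  fin_cases c <;> simp

lemma col_shift (y : Site d → ℕ → X) (a : Site d) : col (shift a y) = shift a (col y) := by
  classical
  funext v
  simp only [col, hasColor_shift, shift]

/-- The colour of the origin depends only on the labels in a ball, under the certificate. -/
lemma col_local {y y' : Site d → ℕ → X} {K : ℕ}
    (hK : Cert (fun v => y v K) (eL K) (eW K))
    (h : ∀ v, nd v ≤ eR K + 2 → y' v = y v) : col y' 0 = col y 0 := by
  obtain ⟨s, hs⟩ := hK.deep
  obtain ⟨c, hc⟩ := HasColor.exists_of_deep hs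
  rw [col_eq hc, col_eq (hasColor_local h hs hc)]

lemma col_proper {y : Site d → ℕ → X}
    (hy : ∀ v, ∃ K, Cert (fun w => shift v y w K) (eL K) (eW K)) : IsProper (col y) := by
  have key : ∀ v, ∃ c, HasColor y v c := by
    intro v
    obtain ⟨K, hK⟩ := hy v
    obtain ⟨s, hs⟩ := Cert.deep hK
    obtain ⟨c, hc⟩ := HasColor.exists_of_deep hs
    refine ⟨c, ?_⟩
    rw [hasColor_shift, zero_add] at hc
    exact hc
  intro u v huv
  obtain ⟨c, hc⟩ := key u
  obtain ⟨c', hc'⟩ := key v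
  rw [col_eq hc, col_eq hc']
  exact proper_aux (nd_le_one_of_l1 huv) (par_adj huv) hc hc'

end Pool.Agent.TH964.FC
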