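import Mathlib
import Pool.Agent.TH964.FC.Colour

set_option autoImplicit false

/-!
Measurability of the colouring.
-/

namespace Pool.Agent.TH964.FC

open MeasureTheory

variable {d : ℕ}

/-- The fields of labels. -/
abbrev Fld (d : ℕ) : Type := Site d → ℕ → unitInterval

lemma meas_pre (k : ℕ) (s u : Site d) : Measurable (fun y : Fld d => u ∈ pre y k s) := by
  unfold pre
  simp only [Set.mem_ofPred_eq]
  refine Measurable.and measurable_const (Measurable.forall (fun t => ?_))
  refine Measurable.imp measurable_const (Measurable.imp measurable_const ?_)
  have h1 : ∀ t : Site d, Measurable (fun y : Fld d => y t k) := fun t =>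
    (measurable_pi_apply k).comp (measurable_pi_apply t)
  exact measurableSet_setOfPred.1 (measurableSet_lt (h1 t) (h1 s))

lemma meas_absorb {J : Fld d → Site d → Set (Site d)} {a : ℕ} {A : Fld d → Set (Site d)}
    (hJ : ∀ t u, Measurable (fun y => u ∈ J y t)) (hA : ∀ x, Measurable (fun y => x ∈ A y))
    (v : Site d) : Measurable (fun y => v ∈ absorb (J y) a (A y)) := by
  unfold absorb
  simp only [Set.mem_ofPred_eq]
  refine Measurable.or (hA v) (Measurable.exists (fun t => Measurable.and ?_ ?_))
  · exact Measurable.exists (fun u => (hJ t u).and measurable_const)
  · exact Measurable.exists (fun u => (hJ t u).and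
      (Measurable.exists (fun x => (hA x).and measurable_const)))

lemma meas_fold {I : Fld d → ℕ → Site d → Set (Site d)} (n : ℕ) :
    ∀ {A : Fld d → Set (Site d)}, (∀ j, j < n → ∀ t u, Measurable (fun y => u ∈ I y j t)) →
    (∀ x, Measurable (fun y => x ∈ A y)) → ∀ v, Measurable (fun y => v ∈ fold (I y) n (A y)) := by
  induction n with
  | zero => intro A _ hA v; exact hA v
  | succ n ih =>
    intro A hI hA v
    exact ih (fun j hj => hI j (Nat.lt_succ_of_lt hj))
      (fun x => meas_absorb (fun t u => hI n (Nat.lt_succ_self n) t u) hA x) v

lemma meas_isl (k : ℕ) : ∀ s u : Site d, Measurable (fun y : Fld d => u ∈ isl y k s) := by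
  induction k using Nat.strong_induction_on with
  | _ k ih =>
    intro s u
    have : (fun y : Fld d => u ∈ isl y k s) = fun y => u ∈ fold (isl y) k (pre y k s) := by
      funext y; rw [isl_eq]
    rw [this]
    exact meas_fold k ih (fun x => meas_pre k s x) u

lemma meas_deep (k : ℕ) (s v : Site d) (n : ℕ) :
    Measurable (fun y : Fld d => Deep (isl y k s) v n) :=
  Measurable.forall (fun u => Measurable.imp measurable_const (meas_isl k s u))

lemma meas_first (k : ℕ) (s v : Site d) :
    Measurable (fun y : Fld d => First y v k s) :=
  Measurable.and (meas_isl k s v) (Measurable.forall (fun j => Measurable.imp measurable_const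
    (Measurable.forall (fun t => Measurable.not (meas_isl j t v)))))

lemma meas_next (k k' : ℕ) (s' v : Site d) :
    Measurable (fun y : Fld d => Next y v k k' s') :=
  Measurable.and measurable_const (Measurable.and (meas_isl k' s' v)
    (Measurable.forall (fun j => Measurable.imp measurable_const (Measurable.imp measurable_const
    (Measurable.forall (fun t => Measurable.not (meas_isl j t v)))))))

lemma meas_hasColor (v : Site d) (c : Fin 3) : Measurable (fun y : Fld d => HasColor y v c) := by
  refine Measurable.exists (fun k => Measurable.exists (fun s => (meas_first k s v).and ?_))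
  refine Measurable.or ((meas_deep k s v 2).and measurable_const) ?_
  refine (meas_deep k s v 2).not.and (Measurable.exists (fun k' => Measurable.exists (fun s' =>
    (meas_next k k' s' v).and ?_)))
  refine Measurable.or measurable_const (Measurable.or ?_ ?_)
  · exact Measurable.and measurable_const ((meas_deep k s v 1).and measurable_const)
  · exact Measurable.and measurable_const ((meas_deep k s v 1).not.and measurable_const)

lemma meas_col : Measurable (fun y : Fld d => col y) := by
  classical
  refine measurable_pi_lambda _ (fun v => ?_)
  have : (fun y : Fld d => col y v) = fun y => if HasColor y v 1 then (1 : Fin 3) else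
      if HasColor y v 2 then 2 else 0 := by
    funext y
    unfold col
    congr
  rw [this]
  exact Measurable.ite (measurableSet_setOfPred.2 (meas_hasColor v 1)) measurable_const
    (Measurable.ite (measurableSet_setOfPred.2 (meas_hasColor v 2)) measurable_const measurable_const)

lemma meas_cert (k L w : ℕ) : MeasurableSet {y : Fld d | Cert (fun v => y v k) L w} := by
  apply measurableSet_setOfPred.2
  refine Measurable.exists (fun s => Measurable.and measurable_const
    (Measurable.forall (fun t => ?_)))
  refine Measurable.imp measurable_const (Measurable.imp measurable_const ?_)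
  have h1 : ∀ t : Site d, Measurable (fun y : Fld d => y t k) := fun t =>
    (measurable_pi_apply k).comp (measurable_pi_apply t)
  exact measurableSet_setOfPred.1 (measurableSet_lt (h1 t) (h1 s))

end Pool.Agent.TH964.FC
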