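import Mathlib
import Pool.Agent.TH964.FC.Meas
import Pool.Agent.TH964.FC.Glue

set_option autoImplicit false

/-!
The probability of the certificates.
-/

namespace Pool.Agent.TH964.FC

open MeasureTheory
open scoped ENNReal

variable {d : ℕ}

/-- The law of one level of labels. -/
noncomputable abbrev P0 (d : ℕ) : Measure (Site d → unitInterval) :=
  iidLaw d (volume : Measure unitInterval)

/-- The ball of radius `M` as a finset. -/
noncomputable def bal (d M : ℕ) : Finset (Site d) :=
  Fintype.piFinset (fun _ : Fin d => Finset.Icc (-(M : ℤ)) M)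

lemma mem_bal {M : ℕ} {v : Site d} : v ∈ bal d M ↔ nd v ≤ M := by
  unfold bal
  rw [Fintype.mem_piFinset, nd_le]
  refine forall_congr' (fun i => ?_)
  rw [Finset.mem_Icc]
  omega

lemma card_bal (M : ℕ) : (bal d M).card = (2 * M + 1) ^ d := by
  unfold bal
  rw [Fintype.card_piFinset]
  simp only [Int.card_Icc, Finset.prod_const, Finset.card_univ, Fintype.card_fin]
  congr 1
  omega

/-- The site `s` carries the largest label in `S`. -/
def best (S : Finset (Site d)) (s : Site d) : Set (Site d → unitInterval) :=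
  {z | ∀ t ∈ S, t ≠ s → z t < z s}

lemma measurableSet_best (S : Finset (Site d)) (s : Site d) : MeasurableSet (best S s) := by
  unfold best
  apply measurableSet_setOfPred.2
  refine Measurable.forall (fun t => Measurable.imp measurable_const
    (Measurable.imp measurable_const ?_))
  exact measurableSet_setOfPred.1 (measurableSet_lt (measurable_pi_apply t) (measurable_pi_apply s))

lemma perm_mp (σ : Equiv.Perm (Site d)) :
    MeasurePreserving (fun (z : Site d → unitInterval) v => z (σ v)) (P0 d) (P0 d) := by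
  refine ⟨measurable_pi_lambda _ (fun v => measurable_pi_apply _), ?_⟩
  exact Measure.map_infinitePi_infinitePi_of_inj (P := fun _ : Site d => (volume : Measure unitInterval))
    (f := σ) σ.injective

lemma best_swap {S : Finset (Site d)} {s t : Site d} (hs : s ∈ S) (ht : t ∈ S) :
    (P0 d) (best S s) = (P0 d) (best S t) := by
  have h := (perm_mp (Equiv.swap s t)).measure_preimage (measurableSet_best S s).nullMeasurableSet
  rw [← h]
  congr 1
  have key : ∀ u ∈ S, Equiv.swap s t u ∈ S := by
    intro u hu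
    by_cases h1 : u = s
    · rw [h1, Equiv.swap_apply_left]; exact ht
    · by_cases h2 : u = t
      · rw [h2, Equiv.swap_apply_right]; exact hs
      · rw [Equiv.swap_apply_of_ne_of_ne h1 h2]; exact hu
  ext z
  simp only [best, Set.mem_preimage, Set.mem_ofPred_eq, Equiv.swap_apply_left]
  constructor
  · intro h u hu hut
    have := h (Equiv.swap s t u) (key u hu) (fun h' => hut (by
      have := congrArg (Equiv.swap s t) h'
      rwa [Equiv.swap_apply_self, Equiv.swap_apply_left] at this))
    rwa [Equiv.swap_apply_self] at this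
  · intro h u hu hus
    exact h (Equiv.swap s t u) (key u hu) (fun h' => hus (by
      have := congrArg (Equiv.swap s t) h'
      rwa [Equiv.swap_apply_self, Equiv.swap_apply_right] at this))

lemma tie_null {s t : Site d} (hst : s ≠ t) : (P0 d) {z | z s = z t} = 0 := by
  have h1 : MeasurableSet {p : unitInterval × unitInterval | p.1 = p.2} :=
    measurableSet_eq_fun measurable_fst measurable_snd
  have h2 : ((volume : Measure unitInterval).prod (volume : Measure unitInterval))
      {p | p.1 = p.2} = 0 := by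
    rw [Measure.measure_prod_null h1]
    refine Filter.Eventually.of_forall (fun x => ?_)
    have : Prod.mk x ⁻¹' {p : unitInterval × unitInterval | p.1 = p.2} = {x} := by
      ext y
      simp [eq_comm]
    show volume (Prod.mk x ⁻¹' {p : unitInterval × unitInterval | p.1 = p.2}) = 0
    rw [this]
    exact measure_singleton x
  have h3 := Measure.infinitePi_map_eval_prod (P := fun _ : Site d => (volume : Measure unitInterval))
    hst
  rw [← h3, Measure.map_apply (by fun_prop) h1] at h2
  exact h2

lemma sum_best {S : Finset (Site d)} (hS : S.Nonempty) : ∑ s ∈ S, (P0 d) (best S s) = 1 := by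
  have h1 : (P0 d) (⋃ s ∈ S, best S s) = ∑ s ∈ S, (P0 d) (best S s) := by
    refine measure_biUnion_finset ?_ (fun s _ => measurableSet_best S s)
    intro s hs t ht hst
    refine Set.disjoint_left.2 (fun z hz1 hz2 => ?_)
    exact lt_irrefl _ ((hz1 t ht hst.symm).trans (hz2 s hs hst))
  rw [← h1]
  have h2 : (P0 d) (⋃ s ∈ S, best S s)ᶜ = 0 := by
    refine measure_mono_null (t := ⋃ s ∈ S, ⋃ t ∈ S.erase s, {z | z s = z t}) ?_ ?_
    · intro z hz
      obtain ⟨s, hs, hmax⟩ := Finset.exists_max_image S z hS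
      simp only [Set.mem_compl_iff, Set.mem_iUnion, not_exists, best, Set.mem_ofPred_eq] at hz
      have := hz s hs
      push Not at this
      obtain ⟨t, ht, hts, hle⟩ := this
      simp only [Set.mem_iUnion]
      exact ⟨s, hs, t, Finset.mem_erase.2 ⟨hts, ht⟩, le_antisymm hle (hmax t ht)⟩
    · refine (measure_biUnion_null_iff (Finset.countable_toSet S)).2 (fun s _ => ?_)
      refine (measure_biUnion_null_iff (Finset.countable_toSet _)).2 (fun t ht => ?_)
      exact tie_null (Finset.ne_of_mem_erase ht).symm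
  have h3 : MeasurableSet (⋃ s ∈ S, best S s) :=
    Finset.measurableSet_biUnion S (fun s _ => measurableSet_best S s)
  exact (prob_compl_eq_zero_iff h3).1 h2

lemma prob_best {S : Finset (Site d)} {s : Site d} (hs : s ∈ S) :
    (P0 d) (best S s) = (S.card : ℝ≥0∞)⁻¹ := by
  have h := sum_best ⟨s, hs⟩
  rw [Finset.sum_congr rfl (fun t ht => best_swap ht hs), Finset.sum_const, nsmul_eq_mul] at h
  exact ENNReal.eq_inv_of_mul_eq_one_left (by rw [mul_comm]; exact h)

lemma cert_eq {L w : ℕ} (hL : w + 2 ≤ L) : {z : Site d → unitInterval | Cert z L w} =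
    ⋃ s ∈ bal d (L - w - 2), best (bal d (L + w + 2)) s := by
  ext z
  simp only [Cert, best, Set.mem_ofPred_eq, Set.mem_iUnion, mem_bal, exists_prop]
  refine exists_congr (fun s => ?_)
  constructor
  · rintro ⟨h1, h2⟩
    exact ⟨by omega, fun t h3 h4 => h2 t h4 h3⟩
  · rintro ⟨h1, h2⟩
    exact ⟨by omega, fun t h3 h4 => h2 t h4 h3⟩

lemma prob_cert {L w : ℕ} (hL : w + 2 ≤ L) : (P0 d) {z | Cert z L w} =
    ((bal d (L - w - 2)).card : ℝ≥0∞) * ((bal d (L + w + 2)).card : ℝ≥0∞)⁻¹ := by
  rw [cert_eq hL]
  have hsub : ∀ s ∈ bal d (L - w - 2), s ∈ bal d (L + w + 2) := by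
    intro s hs
    rw [mem_bal] at hs ⊢
    omega
  rw [measure_biUnion_finset]
  · rw [Finset.sum_congr rfl (fun t ht => prob_best (hsub t ht)), Finset.sum_const, nsmul_eq_mul]
  · intro s hs t ht hst
    refine Set.disjoint_left.2 (fun z hz1 hz2 => ?_)
    exact lt_irrefl _ ((hz1 t (hsub t ht) hst.symm).trans (hz2 s (hsub s hs) hst))
  · exact fun s _ => measurableSet_best _ s

lemma measurableSet_cert {L w : ℕ} (hL : w + 2 ≤ L) :
    MeasurableSet {z : Site d → unitInterval | Cert z L w} := by
  rw [cert_eq hL]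
  exact Finset.measurableSet_biUnion _ (fun s _ => measurableSet_best _ s)

lemma prob_not_cert {L w : ℕ} (hL : w + 2 ≤ L) : (P0 d) {z | ¬ Cert z L w} ≤
    ENNReal.ofReal (d * ((4 * w + 8 : ℝ) / (2 * L + 2 * w + 5))) := by
  have h1 : {z : Site d → unitInterval | ¬ Cert z L w} = {z | Cert z L w}ᶜ := rfl
  rw [h1, prob_compl_eq_one_sub (measurableSet_cert hL), prob_cert hL, card_bal, card_bal]
  have hx : (0 : ℝ) < 2 * L + 2 * w + 5 := by positivity
  set x : ℝ := (4 * w + 8 : ℝ) / (2 * L + 2 * w + 5) with hxdef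
  have hx1 : x ≤ 1 := by
    rw [hxdef, div_le_one hx]
    have : ((w + 2 : ℕ) : ℝ) ≤ L := by exact_mod_cast hL
    push_cast at this
    linarith
  have h2 : (((2 * (L - w - 2) + 1) ^ d : ℕ) : ℝ≥0∞) * (((2 * (L + w + 2) + 1) ^ d : ℕ) : ℝ≥0∞)⁻¹ =
      ENNReal.ofReal ((1 - x) ^ d) := by
    have e1 : (1 - x) = (2 * (L - w - 2 : ℕ) + 1 : ℝ) / (2 * (L + w + 2 : ℕ) + 1) := by
      rw [hxdef]
      have : ((L - w - 2 : ℕ) : ℝ) = L - w - 2 := by
        rw [Nat.cast_sub (by omega), Nat.cast_sub (by omega)]
        simp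
      rw [this]
      push_cast
      field_simp
      ring
    rw [e1, div_pow, div_eq_mul_inv, ENNReal.ofReal_mul (by positivity),
      ENNReal.ofReal_inv_of_pos (by positivity)]
    congr 1
    · rw [← ENNReal.ofReal_natCast]
      push_cast
      rfl
    · congr 1
      rw [← ENNReal.ofReal_natCast]
      push_cast
      rfl
  rw [h2, ← ENNReal.ofReal_one, ← ENNReal.ofReal_sub _ (by
    apply pow_nonneg; linarith)]
  apply ENNReal.ofReal_le_ofReal
  have h3 := one_add_mul_le_pow (a := -x) (by linarith) d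
  have h4 : 1 + -x = 1 - x := by ring
  rw [h4] at h3
  linarith

lemma prob_level (k : ℕ) : (P0 d) {z | ¬ Cert z (eL k) (eW k)} ≤
    ENNReal.ofReal (4 * d / (k + 2)) := by
  refine le_trans (prob_not_cert (by have := eW_le k; omega)) ?_
  apply ENNReal.ofReal_le_ofReal
  have h1 : (4 * (eW k : ℝ) + 8) / (2 * (eL k) + 2 * (eW k) + 5) ≤ 4 / (k + 2) := by
    rw [div_le_div_iff₀ (by positivity) (by positivity)]
    unfold eL eW
    push_cast
    nlinarith [(Nat.cast_nonneg (eE k) : (0 : ℝ) ≤ eE k), (Nat.cast_nonneg k : (0 : ℝ) ≤ k)]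
  calc (d : ℝ) * ((4 * (eW k : ℝ) + 8) / (2 * (eL k) + 2 * (eW k) + 5)) ≤ d * (4 / (k + 2)) := by
        gcongr
    _ = 4 * d / (k + 2) := by ring

end Pool.Agent.TH964.FC
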