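import Mathlib
import Pool.Agent.TH964.FC.Prob

set_option autoImplicit false

/-!
Independence of the levels, and the moment bound.
-/

namespace Pool.Agent.TH964.FC

open MeasureTheory Filter
open scoped ENNReal Topology

variable {d : ℕ}

/-- The law of the sequences of labels. -/
noncomputable abbrev nuS : Measure (ℕ → unitInterval) :=
  Measure.infinitePi (fun _ : ℕ => (volume : Measure unitInterval))

/-- The law of the field of sequences of labels. -/
noncomputable abbrev PX (d : ℕ) : Measure (Fld d) := iidLaw d nuS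

/-- Exchange of the levels and the sites. -/
def flip (y : Fld d) : ℕ → Site d → unitInterval := fun k v => y v k

lemma flip_mp : MeasurePreserving (flip (d := d)) (PX d)
    (Measure.infinitePi (fun _ : ℕ => P0 d)) := by
  refine ⟨measurable_pi_lambda _ (fun k => measurable_pi_lambda _ (fun v =>
    (measurable_pi_apply k).comp (measurable_pi_apply v))), ?_⟩
  have h1 := Measure.infinitePi_map_curry
    (μ := fun (_ : Site d) (_ : ℕ) => (volume : Measure unitInterval))
  have h2 := Measure.infinitePi_map_curry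
    (μ := fun (_ : ℕ) (_ : Site d) => (volume : Measure unitInterval))
  have h3 := Measure.map_infinitePi_infinitePi_of_inj
    (P := fun _ : Site d × ℕ => (volume : Measure unitInterval))
    (f := (Prod.swap : ℕ × Site d → Site d × ℕ)) Prod.swap_injective
  have e1 : PX d = Measure.infinitePi fun _ : Site d => Measure.infinitePi fun _ : ℕ =>
    (volume : Measure unitInterval) := rfl
  have e2 : (Measure.infinitePi (fun _ : ℕ => P0 d)) = Measure.infinitePi fun _ : ℕ =>
    Measure.infinitePi fun _ : Site d => (volume : Measure unitInterval) := rfl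
  rw [e1, e2, ← h1, ← h2, ← h3, Measure.map_map, Measure.map_map]
  · rfl
  · exact MeasurableEquiv.measurable _
  · exact measurable_pi_lambda _ (fun v => measurable_pi_apply _)
  · exact measurable_pi_lambda _ (fun k => measurable_pi_lambda _ (fun v =>
      (measurable_pi_apply k).comp (measurable_pi_apply v)))
  · exact MeasurableEquiv.measurable _

/-- No certificate below level `n`. -/
def tS (d n : ℕ) : Set (Fld d) := {y | ∀ k, k < n → ¬ Cert (fun v => y v k) (eL k) (eW k)}

lemma measurableSet_tS (n : ℕ) : MeasurableSet (tS d n) := by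
  have : tS d n = ⋂ k, ⋂ (_ : k < n), {y : Fld d | Cert (fun v => y v k) (eL k) (eW k)}ᶜ := by
    ext y
    simp [tS]
  rw [this]
  exact MeasurableSet.iInter (fun k => MeasurableSet.iInter (fun _ => (meas_cert k _ _).compl))

lemma prob_tS (n : ℕ) : (PX d) (tS d n) ≤
    ENNReal.ofReal (∏ k ∈ Finset.range n, (4 * d / (k + 2) : ℝ)) := by
  have hm : ∀ k, MeasurableSet {z : Site d → unitInterval | ¬ Cert z (eL k) (eW k)} := fun k =>
    (measurableSet_cert (by have := eW_le k; omega)).compl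
  have h1 : tS d n = flip ⁻¹' (Set.pi (Finset.range n)
      (fun k => {z : Site d → unitInterval | ¬ Cert z (eL k) (eW k)})) := by
    ext y
    simp only [tS, Set.mem_ofPred_eq, Set.mem_preimage, Set.mem_pi, Finset.coe_range, Set.mem_Iio]
    exact Iff.rfl
  rw [h1, flip_mp.measure_preimage
    (MeasurableSet.pi (Finset.countable_toSet _) (fun k _ => hm k)).nullMeasurableSet,
    Measure.infinitePi_pi _ (fun k _ => hm k), ENNReal.ofReal_prod_of_nonneg
    (fun k _ => by positivity)]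
  exact Finset.prod_le_prod' (fun k _ => prob_level k)

/-- The bound for the coding radius. -/
def rho (d k : ℕ) : ℕ := d * (eR k + 2)

lemma rho_succ (k : ℕ) : rho d (k + 1) ≤ 14 * (k + 2) * rho d k := by
  unfold rho
  have h : eR (k + 1) + 2 ≤ 14 * (k + 2) * (eR k + 2) := by
    have e1 : eE (k + 1) = 5 * eE k + 2 * ((k + 2) * (eE k + 6)) + 6 := rfl
    have e2 : eR k + 2 = (k + 2) * (eE k + 6) + 3 * eE k + 6 := by
      unfold eR eL eW; ring
    have e3 : eR (k + 1) + 2 = (k + 3) * (eE (k + 1) + 6) + 3 * eE (k + 1) + 6 := by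
      unfold eR eL eW; ring
    rw [e2, e3, e1]
    generalize eE k = x
    nlinarith [Nat.zero_le (k * x), Nat.zero_le (k * k * x), Nat.zero_le k, Nat.zero_le x,
      Nat.zero_le (k * k)]
  calc d * (eR (k + 1) + 2) ≤ d * (14 * (k + 2) * (eR k + 2)) := Nat.mul_le_mul_left d h
    _ = 14 * (k + 2) * (d * (eR k + 2)) := by ring

lemma summable_f (d : ℕ) {α : ℝ} (hα0 : 0 ≤ α) (hα1 : α < 1) :
    Summable (fun n : ℕ => (rho d (n + 1) : ℝ) ^ α *
      ∏ k ∈ Finset.range (n + 1), (4 * d / (k + 2) : ℝ)) := by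
  have hlim : Tendsto (fun n : ℕ => (14 : ℝ) ^ α * (4 * d) * ((n + 3 : ℕ) : ℝ) ^ (-(1 - α)))
      atTop (𝓝 0) := by
    have h1 := (tendsto_rpow_neg_atTop (y := 1 - α) (by linarith)).comp
      (tendsto_natCast_atTop_atTop (R := ℝ))
    have h2 := ((tendsto_add_atTop_iff_nat 3).2 h1).const_mul ((14 : ℝ) ^ α * (4 * d))
    rw [mul_zero] at h2
    exact h2
  have hev : ∀ᶠ n : ℕ in atTop, (14 : ℝ) ^ α * (4 * d) * ((n + 3 : ℕ) : ℝ) ^ (-(1 - α)) ≤ 1 / 2 :=
    (hlim.eventually (gt_mem_nhds (by norm_num : (0 : ℝ) < 1 / 2))).mono (fun n hn => le_of_lt hn)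
  refine summable_of_ratio_norm_eventually_le (r := 1 / 2) (by norm_num) ?_
  filter_upwards [hev] with n hn
  set p : ℝ := ∏ k ∈ Finset.range (n + 1), (4 * d / (k + 2) : ℝ) with hp
  have hp0 : 0 ≤ p := Finset.prod_nonneg (fun k _ => by positivity)
  rw [Finset.prod_range_succ, ← hp, Real.norm_of_nonneg (by positivity),
    Real.norm_of_nonneg (by positivity)]
  have h1 : (rho d (n + 1 + 1) : ℝ) ≤ 14 * ((n + 3 : ℕ) : ℝ) * rho d (n + 1) := by
    have := rho_succ (d := d) (n + 1)
    have h2 : ((rho d (n + 1 + 1) : ℕ) : ℝ) ≤ ((14 * (n + 1 + 2) * rho d (n + 1) : ℕ) : ℝ) := by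
      exact_mod_cast this
    push_cast at h2 ⊢
    have h3 : (n : ℝ) + 1 + 2 = n + 3 := by ring
    rwa [h3] at h2
  have h2 : (rho d (n + 1 + 1) : ℝ) ^ α ≤
      (14 : ℝ) ^ α * ((n + 3 : ℕ) : ℝ) ^ α * (rho d (n + 1) : ℝ) ^ α := by
    rw [← Real.mul_rpow (by positivity) (by positivity),
      ← Real.mul_rpow (by positivity) (by positivity)]
    exact Real.rpow_le_rpow (by positivity) h1 hα0
  have h3 : ((n + 3 : ℕ) : ℝ) ^ α / ((n + 3 : ℕ) : ℝ) = ((n + 3 : ℕ) : ℝ) ^ (-(1 - α)) := by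
    have h4 : -(1 - α) = α - 1 := by ring
    rw [h4, Real.rpow_sub_one (by positivity)]
  have h5 : ((n + 1 : ℕ) : ℝ) + 2 = ((n + 3 : ℕ) : ℝ) := by push_cast; ring
  calc (rho d (n + 1 + 1) : ℝ) ^ α * (p * (4 * d / (((n + 1 : ℕ) : ℝ) + 2)))
      ≤ ((14 : ℝ) ^ α * ((n + 3 : ℕ) : ℝ) ^ α * (rho d (n + 1) : ℝ) ^ α) *
        (p * (4 * d / (((n + 1 : ℕ) : ℝ) + 2))) := by gcongr
    _ = ((14 : ℝ) ^ α * (4 * d) * (((n + 3 : ℕ) : ℝ) ^ α / ((n + 3 : ℕ) : ℝ))) *
        ((rho d (n + 1) : ℝ) ^ α * p) := by rw [h5]; ring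
    _ ≤ 1 / 2 * ((rho d (n + 1) : ℝ) ^ α * p) := by
        rw [h3]
        gcongr

/-- The majorant. -/
noncomputable def maj (d : ℕ) (α : ℝ) (y : Fld d) : ℝ≥0∞ :=
  (rho d 0 : ℝ≥0∞) ^ α +
    ∑' n : ℕ, (tS d (n + 1)).indicator (fun _ => (rho d (n + 1) : ℝ≥0∞) ^ α) y

lemma measurable_maj (d : ℕ) (α : ℝ) : Measurable (maj d α) :=
  measurable_const.add (Measurable.tsum (fun n =>
    measurable_const.indicator (measurableSet_tS (n + 1))))

lemma lintegral_maj (d : ℕ) {α : ℝ} (hα0 : 0 ≤ α) (hα1 : α < 1) :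
    ∫⁻ y, maj d α y ∂(PX d) ≠ ⊤ := by
  unfold maj
  rw [lintegral_add_left measurable_const, lintegral_tsum (fun n =>
    (measurable_const.indicator (measurableSet_tS (n + 1))).aemeasurable)]
  refine ENNReal.add_ne_top.2 ⟨?_, ?_⟩
  · rw [lintegral_const, measure_univ, mul_one]
    exact ENNReal.rpow_ne_top_of_nonneg hα0 (ENNReal.natCast_ne_top _)
  · refine ne_top_of_le_ne_top (b := ∑' n : ℕ, ENNReal.ofReal ((rho d (n + 1) : ℝ) ^ α *
      ∏ k ∈ Finset.range (n + 1), (4 * d / (k + 2) : ℝ))) (summable_f d hα0 hα1).tsum_ofReal_ne_top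
      (ENNReal.tsum_le_tsum (fun n => ?_))
    rw [lintegral_indicator_const (measurableSet_tS (n + 1)), ENNReal.ofReal_mul (by positivity)]
    gcongr
    · rw [← ENNReal.ofReal_rpow_of_nonneg (by positivity) hα0, ENNReal.ofReal_natCast]
    · exact prob_tS (n + 1)

lemma codingRadius_le {y : Fld d} {K : ℕ} (hK : Cert (fun v => y v K) (eL K) (eW K)) :
    codingRadius (fun y : Fld d => col y) y ≤ (rho d K : ℕ) := by
  refine iInf₂_le (rho d K) ?_
  intro y' hy'
  refine col_local hK (fun v hv => hy' v ?_)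
  refine le_trans (l1_le v) ?_
  unfold rho
  push_cast
  have : (nd v : ℤ) ≤ eR K + 2 := by exact_mod_cast hv
  gcongr

lemma radius_le_maj (hd : 1 ≤ d) {α : ℝ} (hα : 0 < α) (y : Fld d) :
    ((codingRadius (fun y : Fld d => col y) y : ℕ∞) : ℝ≥0∞) ^ α ≤ maj d α y := by
  classical
  by_cases h : ∃ K, Cert (fun v => y v K) (eL K) (eW K)
  · have h1 := codingRadius_le (Nat.find_spec h)
    have h2 : ((codingRadius (fun y : Fld d => col y) y : ℕ∞) : ℝ≥0∞) ≤
        (rho d (Nat.find h) : ℝ≥0∞) := by exact_mod_cast h1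
    refine le_trans (ENNReal.rpow_le_rpow h2 hα.le) ?_
    unfold maj
    rcases hK : Nat.find h with _ | n
    · exact le_self_add
    · have hmem : y ∈ tS d (n + 1) := fun k hk => Nat.find_min h (by omega)
      refine le_trans ?_ le_add_self
      refine le_trans ?_ (ENNReal.le_tsum n)
      rw [Set.indicator_of_mem hmem]
  · push Not at h
    unfold maj
    have h1 : ∀ n, y ∈ tS d n := fun n k _ => h k
    have h2 : (⊤ : ℝ≥0∞) ≤ ∑' n : ℕ, (tS d (n + 1)).indicator
        (fun _ => (rho d (n + 1) : ℝ≥0∞) ^ α) y := by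
      rw [← ENNReal.tsum_const_eq_top_of_ne_zero (α := ℕ) (one_ne_zero (α := ℝ≥0∞))]
      refine ENNReal.tsum_le_tsum (fun n => ?_)
      rw [Set.indicator_of_mem (h1 (n + 1))]
      apply ENNReal.one_le_rpow _ hα
      have : 1 ≤ rho d (n + 1) := by
        unfold rho
        exact Nat.mul_pos hd (by omega)
      exact_mod_cast this
    exact le_trans le_top (le_trans h2 le_add_self)

end Pool.Agent.TH964.FC
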