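import Mathlib
import Pool.Agent.TH964.FC.Level
import Pool.Agent.TH964.FC.Defs2

set_option autoImplicit false

/-!
A finitary 3-colouring of `ℤ^d` with finite moments of all orders less than one.
-/

namespace Pool.Agent.TH964.FC

open MeasureTheory Filter
open scoped ENNReal Topology

variable {d : ℕ}

lemma determines_of_cert {y : Fld d} {K : ℕ} (hK : Cert (fun v => y v K) (eL K) (eW K)) :
    Determines (fun y : Fld d => col y) y (rho d K) := by
  intro y' hy'
  refine col_local hK (fun v hv => hy' v ?_)
  refine le_trans (l1_le v) ?_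
  unfold rho
  push_cast
  have : (nd v : ℤ) ≤ eR K + 2 := by exact_mod_cast hv
  gcongr

lemma ae_cert_zero : ∀ᵐ y : Fld d ∂(PX d), ∃ K, Cert (fun w => y w K) (eL K) (eW K) := by
  rw [ae_iff]
  have h1 : ∀ n, (PX d) {y : Fld d | ¬ ∃ K, Cert (fun w => y w K) (eL K) (eW K)} ≤
      ENNReal.ofReal (∏ k ∈ Finset.range (n + 1), (4 * d / (k + 2) : ℝ)) := by
    intro n
    refine le_trans (measure_mono ?_) (prob_tS (n + 1))
    intro y hy k _ hk
    exact hy ⟨k, hk⟩
  have h2 : Tendsto (fun n : ℕ => ENNReal.ofReal
      (∏ k ∈ Finset.range (n + 1), (4 * d / (k + 2) : ℝ))) atTop (𝓝 0) := by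
    have h3 := (summable_f d (le_refl 0) (by norm_num)).tendsto_atTop_zero
    simp only [Real.rpow_zero, one_mul] at h3
    have h4 := ENNReal.tendsto_ofReal h3
    rwa [ENNReal.ofReal_zero] at h4
  exact le_antisymm (ge_of_tendsto' h2 h1) bot_le

lemma ae_cert : ∀ᵐ y : Fld d ∂(PX d), ∀ v : Site d, ∃ K, Cert (fun w => shift v y w K) (eL K) (eW K) := by
  rw [ae_all_iff]
  intro v
  exact (shift_mp nuS v).quasiMeasurePreserving.ae ae_cert_zero

/-- Encoding a sequence of labels in one label. -/
noncomputable def gl : unitInterval → (ℕ → unitInterval) :=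
  Classical.choose (Measure.exists_measurable_map_eq nuS)

lemma gl_meas : Measurable gl := (Classical.choose_spec (Measure.exists_measurable_map_eq nuS)).1

lemma gl_map : (volume : Measure unitInterval).map gl = nuS :=
  (Classical.choose_spec (Measure.exists_measurable_map_eq nuS)).2

/-- The field of sequences. -/
noncomputable def glF (y : Site d → unitInterval) : Fld d := fun v => gl (y v)

lemma glF_mp : MeasurePreserving (glF (d := d)) (P0 d) (PX d) := by
  refine ⟨measurable_pi_lambda _ (fun v => gl_meas.comp (measurable_pi_apply v)), ?_⟩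
  have := Measure.infinitePi_map_pi (μ := fun _ : Site d => (volume : Measure unitInterval))
    (f := fun _ => gl) (fun _ => gl_meas)
  have h2 : (Measure.infinitePi fun _ : Site d => (volume : Measure unitInterval).map gl) =
      PX d := by
    rw [gl_map]
    rfl
  rw [h2] at this
  exact this

/-- The colouring from uniform labels. -/
noncomputable def Fcol (y : Site d → unitInterval) : Site d → Fin 3 := col (glF y)

lemma Fcol_shift (a : Site d) (y : Site d → unitInterval) :
    Fcol (shift a y) = shift a (Fcol y) := by
  unfold Fcol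
  rw [← col_shift]
  rfl

lemma determines_Fcol {y : Site d → unitInterval} {r : ℕ}
    (h : Determines (fun y : Fld d => col y) (glF y) r) : Determines (Fcol (d := d)) y r := by
  intro y' hy'
  exact h (glF y') (fun v hv => by unfold glF; rw [hy' v hv])

lemma Fcol_isFfiid : IsFfiidColouring (volume : Measure unitInterval) (Fcol (d := d)) where
  measurable := meas_col.comp glF_mp.measurable
  equivariant := fun a => Eventually.of_forall (fun y => Fcol_shift a y)
  finitary := by
    have h1 := glF_mp.quasiMeasurePreserving.ae (ae_cert_zero (d := d))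
    filter_upwards [h1] with y hy
    obtain ⟨K, hK⟩ := hy
    exact ⟨rho d K, determines_Fcol (determines_of_cert hK)⟩
  proper := by
    have h1 := glF_mp.quasiMeasurePreserving.ae (ae_cert (d := d))
    filter_upwards [h1] with y hy
    exact col_proper hy

lemma Fcol_radius (y : Site d → unitInterval) :
    codingRadius (Fcol (d := d)) y ≤ codingRadius (fun y : Fld d => col y) (glF y) := by
  refine le_iInf₂ (fun r hr => ?_)
  exact iInf₂_le r (determines_Fcol hr)

theorem Fcol_moment (hd : 1 ≤ d) {α : ℝ} (hα0 : 0 < α) (hα1 : α < 1) :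
    FiniteMoment (volume : Measure unitInterval) (Fcol (d := d)) α := by
  refine ⟨fun y => maj d α (glF y), (measurable_maj d α).comp glF_mp.measurable, fun y => ?_, ?_⟩
  · refine le_trans (ENNReal.rpow_le_rpow ?_ hα0.le) (radius_le_maj hd hα0 (glF y))
    exact_mod_cast Fcol_radius y
  · rw [glF_mp.lintegral_comp (measurable_maj d α)]
    exact lintegral_maj d hα0.le hα1

end Pool.Agent.TH964.FC
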