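import Mathlib

set_option autoImplicit false

/-!
The height function of a proper 3-colouring of a rectangle.
-/

namespace Pool.Agent.TH964.FC

open Finset

/-- The height increment along an edge. -/
def stp (a b : Fin 3) : ℤ := if b = a + 1 then 1 else if a = b + 1 then -1 else 0

lemma stp_cycle : ∀ a b c e : Fin 3, a ≠ b → b ≠ c → a ≠ e → e ≠ c →
    stp a b + stp b c = stp a e + stp e c := by decide

lemma stp_mod : ∀ a b : Fin 3, (3 : ℤ) ∣ stp a b - ((b.val : ℤ) - a.val) := by decide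

lemma stp_par : ∀ a b : Fin 3, a ≠ b → (2 : ℤ) ∣ stp a b - 1 := by decide

lemma stp_abs : ∀ a b : Fin 3, |stp a b| ≤ 1 := by decide

lemma sum_mod (c : ℕ → Fin 3) (q : ℕ) :
    (3 : ℤ) ∣ ∑ i ∈ range q, stp (c i) (c (i + 1)) - (((c q).val : ℤ) - (c 0).val) := by
  induction q with
  | zero => simp
  | succ q ih =>
    rw [sum_range_succ]
    have := stp_mod (c q) (c (q + 1))
    omega

lemma sum_par (c : ℕ → Fin 3) (h : ∀ i, c i ≠ c (i + 1)) (q : ℕ) :
    (2 : ℤ) ∣ ∑ i ∈ range q, stp (c i) (c (i + 1)) - q := by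
  induction q with
  | zero => simp
  | succ q ih =>
    rw [sum_range_succ]
    have := stp_par (c q) (c (q + 1)) (h q)
    push_cast
    omega

lemma sum_abs (c : ℕ → Fin 3) (q : ℕ) :
    |∑ i ∈ range q, stp (c i) (c (i + 1))| ≤ q := by
  refine le_trans (abs_sum_le_sum_abs _ _) ?_
  refine le_trans (sum_le_sum (fun i _ => stp_abs _ _)) ?_
  simp

lemma closed_row (c : ℕ → ℕ → Fin 3) (h1 : ∀ i j, c i j ≠ c (i + 1) j)
    (h2 : ∀ i j, c i j ≠ c i (j + 1)) (q j : ℕ) :
    ∑ i ∈ range q, stp (c i j) (c (i + 1) j) + stp (c q j) (c q (j + 1)) =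
      stp (c 0 j) (c 0 (j + 1)) + ∑ i ∈ range q, stp (c i (j + 1)) (c (i + 1) (j + 1)) := by
  induction q with
  | zero => simp
  | succ q ih =>
    rw [sum_range_succ, sum_range_succ]
    have := stp_cycle (c q j) (c (q + 1) j) (c (q + 1) (j + 1)) (c q (j + 1)) (h1 _ _) (h2 _ _)
      (h2 _ _) (h1 _ _)
    linarith

lemma closed (c : ℕ → ℕ → Fin 3) (h1 : ∀ i j, c i j ≠ c (i + 1) j)
    (h2 : ∀ i j, c i j ≠ c i (j + 1)) (q s : ℕ) :
    ∑ i ∈ range q, stp (c i 0) (c (i + 1) 0) =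
      ∑ j ∈ range s, stp (c 0 j) (c 0 (j + 1)) + ∑ i ∈ range q, stp (c i s) (c (i + 1) s)
        - ∑ j ∈ range s, stp (c q j) (c q (j + 1)) := by
  induction s with
  | zero => simp
  | succ s ih =>
    rw [sum_range_succ, sum_range_succ, ih]
    have := closed_row c h1 h2 q s
    linarith

end Pool.Agent.TH964.FC
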