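import Mathlib
import Pool.Agent.TH964.FC.Glue
import Pool.Agent.TH964.FC.Height

set_option autoImplicit false

/-!
The tail of the coding radius of a finitary 3-colouring of `ℤ^d`, `d ≥ 2`, is at least `c / r`.
-/

namespace Pool.Agent.TH964.FC

open MeasureTheory Finset
open scoped ENNReal

variable {d : ℕ} {T : Type*}

/-- The cube of radius `r`. -/
def box (d r : ℕ) : Set (Site d) := {v | ∀ k, |v k| ≤ r}

/-- The point with the first two coordinates `i`, `j`. -/
def pt (d : ℕ) (i j : ℤ) : Site d := fun k => if (k : ℕ) = 0 then i else if (k : ℕ) = 1 then j else 0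

lemma pt_zero : pt d 0 0 = 0 := by
  funext k; simp [pt]

lemma pt_add (i j i' j' : ℤ) : pt d i j + pt d i' j' = pt d (i + i') (j + j') := by
  funext k
  simp only [pt, Pi.add_apply]
  split_ifs <;> simp

lemma shift_shift {S : Type*} (a b : Site d) (y : Site d → S) :
    shift a (shift b y) = shift (a + b) y := by
  funext v
  simp [shift, add_assoc]

lemma shift_zero {S : Type*} (y : Site d → S) : shift 0 y = y := by
  funext v; simp [shift]

lemma pt_adj (hd : 2 ≤ d) (i j : ℤ) : ∑ k, |pt d i j k - pt d (i + 1) j k| = 1 := by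
  rw [sum_eq_single (⟨0, by omega⟩ : Fin d)]
  · simp [pt]
  · intro k _ hk
    have : (k : ℕ) ≠ 0 := fun h => hk (Fin.ext h)
    simp [pt, this]
  · intro h; exact absurd (mem_univ _) h

lemma pt_adj' (hd : 2 ≤ d) (i j j' : ℤ) (h : |j - j'| = 1) :
    ∑ k, |pt d i j k - pt d i j' k| = 1 := by
  rw [sum_eq_single (⟨1, by omega⟩ : Fin d)]
  · simpa [pt] using h
  · intro k _ hk
    have : (k : ℕ) ≠ 1 := fun h => hk (Fin.ext h)
    simp [pt, this]
  · intro h; exact absurd (mem_univ _) h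

/-- The sum of the height increments along the path from the origin to `(q, 0)` through
`(0, ε s)` and `(q, ε s)`. -/
def psum (x : Site d → Fin 3) (q s : ℕ) (ε : ℤ) : ℤ :=
  ∑ j ∈ range s, stp (x (pt d 0 (ε * (j : ℕ)))) (x (pt d 0 (ε * ((j + 1 : ℕ) : ℤ)))) +
  ∑ i ∈ range q, stp (x (pt d (i : ℕ) (ε * (s : ℕ)))) (x (pt d ((i + 1 : ℕ) : ℤ) (ε * (s : ℕ)))) -
  ∑ j ∈ range s, stp (x (pt d (q : ℕ) (ε * (j : ℕ)))) (x (pt d (q : ℕ) (ε * ((j + 1 : ℕ) : ℤ))))

/-- The vertices of this path. -/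
def pathV (d q s : ℕ) (ε : ℤ) : Finset (Site d) :=
  (range (s + 1)).image (fun j : ℕ => pt d 0 (ε * (j : ℕ))) ∪
  (range (q + 1)).image (fun i : ℕ => pt d (i : ℕ) (ε * (s : ℕ))) ∪
  (range (s + 1)).image (fun j : ℕ => pt d (q : ℕ) (ε * (j : ℕ)))

lemma card_pathV (q s : ℕ) (ε : ℤ) : (pathV d q s ε).card ≤ 2 * (s + 1) + (q + 1) := by
  unfold pathV
  refine le_trans (card_union_le _ _) ?_
  have h1 := card_union_le ((range (s + 1)).image (fun j : ℕ => pt d 0 (ε * (j : ℕ))))
    ((range (q + 1)).image (fun i : ℕ => pt d (i : ℕ) (ε * (s : ℕ))))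
  have h2 := card_image_le (s := range (s + 1)) (f := fun j : ℕ => pt d 0 (ε * (j : ℕ)))
  have h3 := card_image_le (s := range (q + 1)) (f := fun i : ℕ => pt d (i : ℕ) (ε * (s : ℕ)))
  have h4 := card_image_le (s := range (s + 1)) (f := fun j : ℕ => pt d (q : ℕ) (ε * (j : ℕ)))
  rw [card_range] at h2 h3 h4
  omega

lemma psum_congr {x x' : Site d → Fin 3} {q s : ℕ} {ε : ℤ}
    (h : ∀ v ∈ pathV d q s ε, x v = x' v) : psum x q s ε = psum x' q s ε := by
  have h1 : ∀ j < s + 1, x (pt d 0 (ε * (j : ℕ))) = x' (pt d 0 (ε * (j : ℕ))) := by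
    intro j hj
    apply h
    unfold pathV
    rw [mem_union, mem_union]
    exact Or.inl (Or.inl (mem_image.2 ⟨j, mem_range.2 hj, rfl⟩))
  have h2 : ∀ i < q + 1, x (pt d (i : ℕ) (ε * (s : ℕ))) = x' (pt d (i : ℕ) (ε * (s : ℕ))) := by
    intro i hi
    apply h
    unfold pathV
    rw [mem_union, mem_union]
    exact Or.inl (Or.inr (mem_image.2 ⟨i, mem_range.2 hi, rfl⟩))
  have h3 : ∀ j < s + 1, x (pt d (q : ℕ) (ε * (j : ℕ))) = x' (pt d (q : ℕ) (ε * (j : ℕ))) := by
    intro j hj
    apply h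
    unfold pathV
    rw [mem_union, mem_union]
    exact Or.inr (mem_image.2 ⟨j, mem_range.2 hj, rfl⟩)
  unfold psum
  congr 1
  · congr 1
    · refine sum_congr rfl (fun j hj => ?_)
      rw [mem_range] at hj
      rw [h1 j (by omega), h1 (j + 1) (by omega)]
    · refine sum_congr rfl (fun j hj => ?_)
      rw [mem_range] at hj
      rw [h2 j (by omega), h2 (j + 1) (by omega)]
  · refine sum_congr rfl (fun j hj => ?_)
    rw [mem_range] at hj
    rw [h3 j (by omega), h3 (j + 1) (by omega)]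

/-- The height difference between the origin and `(q, 0)`. -/
def hgt (x : Site d → Fin 3) (q : ℕ) : ℤ :=
  ∑ i ∈ range q, stp (x (pt d (i : ℕ) 0)) (x (pt d ((i + 1 : ℕ) : ℤ) 0))

lemma psum_eq (hd : 2 ≤ d) {x : Site d → Fin 3} (hx : IsProper x) (q s : ℕ) (ε : ℤ)
    (hε : |ε| = 1) : psum x q s ε = hgt x q := by
  have := closed (fun i j => x (pt d (i : ℕ) (ε * (j : ℕ)))) (fun i j => ?_) (fun i j => ?_) q s
  · unfold psum hgt
    simp only [Nat.cast_zero, mul_zero] at this
    rw [this]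
  · apply hx
    have := pt_adj hd (i : ℕ) (ε * (j : ℕ))
    push_cast
    exact this
  · apply hx
    apply pt_adj' hd
    push_cast
    rw [mul_add, mul_one]
    have : ε * (j : ℤ) - (ε * (j : ℤ) + ε) = - ε := by ring
    rw [this, abs_neg, hε]

lemma hgt_add (x : Site d → Fin 3) (p q : ℕ) :
    hgt x (p + q) = hgt x p + hgt (shift (pt d p 0) x) q := by
  unfold hgt
  rw [sum_range_add]
  congr 1
  refine sum_congr rfl (fun i _ => ?_)
  simp only [shift, pt_add, add_zero]
  push_cast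
  congr 3 <;> ring_nf

lemma hgt_mod (x : Site d → Fin 3) (q : ℕ) :
    (3 : ℤ) ∣ hgt x q - (((x (pt d q 0)).val : ℤ) - (x 0).val) := by
  have := sum_mod (fun i : ℕ => x (pt d (i : ℕ) 0)) q
  simp only [Nat.cast_zero, pt_zero] at this
  exact this

lemma hgt_par (hd : 2 ≤ d) {x : Site d → Fin 3} (hx : IsProper x) (q : ℕ) :
    (2 : ℤ) ∣ hgt x q - q := by
  refine sum_par (fun i : ℕ => x (pt d (i : ℕ) 0)) (fun i => ?_) q
  apply hx
  have := pt_adj hd (i : ℕ) 0
  push_cast
  exact this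

lemma hgt_abs (x : Site d → Fin 3) (q : ℕ) : |hgt x q| ≤ q :=
  sum_abs (fun i : ℕ => x (pt d (i : ℕ) 0)) q

/-! ### Truncation -/

/-- The truncated colour of the origin. -/
noncomputable def tcol (F : (Site d → T) → (Site d → Fin 3)) (t0 : T) (r : ℕ)
    (ω : Site d → T) : Fin 3 := F (glue (box d r) ω (fun _ => t0)) 0

lemma tcol_dep (F : (Site d → T) → (Site d → Fin 3)) (t0 : T) (r : ℕ) {ω ω' : Site d → T}
    (h : ∀ v ∈ box d r, ω v = ω' v) : tcol F t0 r ω = tcol F t0 r ω' := by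
  unfold tcol
  have : glue (box d r) ω (fun _ => t0) = glue (box d r) ω' (fun _ => t0) := by
    funext v
    by_cases hv : v ∈ box d r
    · rw [glue_mem hv, glue_mem hv, h v hv]
    · rw [glue_not_mem hv, glue_not_mem hv]
  rw [this]

/-- The stationary field of colours. -/
def fld (F : (Site d → T) → (Site d → Fin 3)) (ω : Site d → T) : Site d → Fin 3 :=
  fun v => F (shift v ω) 0

/-- The truncated field of colours. -/
noncomputable def tfld (F : (Site d → T) → (Site d → Fin 3)) (t0 : T) (r : ℕ)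
    (ω : Site d → T) : Site d → Fin 3 := fun v => tcol F t0 r (shift v ω)

lemma fld_shift (F : (Site d → T) → (Site d → Fin 3)) (a : Site d) (ω : Site d → T) :
    fld F (shift a ω) = shift a (fld F ω) := by
  funext v
  simp only [fld, shift_shift]
  rfl

/-- The error set. -/
def errS (F : (Site d → T) → (Site d → Fin 3)) (t0 : T) (r : ℕ) : Set (Site d → T) :=
  {ω | F ω 0 ≠ tcol F t0 r ω}

/-- The sites whose label may matter for the truncated path sum. -/
def zone (d q s r : ℕ) (ε : ℤ) : Set (Site d) := {v | ∃ u ∈ pathV d q s ε, v - u ∈ box d r}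

lemma psum_dep (F : (Site d → T) → (Site d → Fin 3)) (t0 : T) (r q s : ℕ) (ε : ℤ)
    {ω ω' : Site d → T} (h : ∀ v ∈ zone d q s r ε, ω v = ω' v) :
    psum (tfld F t0 r ω) q s ε = psum (tfld F t0 r ω') q s ε := by
  apply psum_congr
  intro u hu
  apply tcol_dep
  intro v hv
  apply h
  refine ⟨u, hu, ?_⟩
  simpa using hv

/-- The two end blocks. -/
def ends (d q r : ℕ) : Set (Site d) := {v | v ∈ box d r ∨ v - pt d q 0 ∈ box d r}

lemma zone_info {q s r : ℕ} {ε : ℤ} (hε : ε = 1 ∨ ε = -1) {v : Site d}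
    (hv : v ∈ zone d q s r ε) : ∃ a b : ℤ, (∀ k, |v k - pt d a b k| ≤ r) ∧
      (((a = 0 ∨ a = q) ∧ 0 ≤ ε * b) ∨ ε * b = s) ∧ 0 ≤ ε * b := by
  obtain ⟨u, hu, huv⟩ := hv
  unfold pathV at hu
  simp only [mem_union, mem_image, mem_range] at hu
  have hε2 : ε * ε = 1 := by rcases hε with rfl | rfl <;> norm_num
  rcases hu with (⟨j, hj, rfl⟩ | ⟨i, hi, rfl⟩) | ⟨j, hj, rfl⟩
  · have : (0 : ℤ) ≤ ε * (ε * (j : ℕ)) := by rw [← mul_assoc, hε2]; positivity
    exact ⟨0, ε * (j : ℕ), huv, Or.inl ⟨Or.inl rfl, this⟩, this⟩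
  · have : ε * (ε * (s : ℕ)) = s := by rw [← mul_assoc, hε2]; simp
    exact ⟨i, ε * (s : ℕ), huv, Or.inr this, by rw [this]; positivity⟩
  · have : (0 : ℤ) ≤ ε * (ε * (j : ℕ)) := by rw [← mul_assoc, hε2]; positivity
    exact ⟨q, ε * (j : ℕ), huv, Or.inl ⟨Or.inr rfl, this⟩, this⟩

lemma zone_inter (hd : 2 ≤ d) {q r : ℕ} {v : Site d} (h1 : v ∈ zone d q (r + 1) r 1)
    (h2 : v ∈ zone d q (r + 1) r (-1)) : v ∈ ends d q r := by
  obtain ⟨a, b, hab, hc, hb⟩ := zone_info (Or.inl rfl) h1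
  obtain ⟨a', b', hab', hc', hb'⟩ := zone_info (Or.inr rfl) h2
  have e1 := hab ⟨1, by omega⟩
  have e2 := hab' ⟨1, by omega⟩
  simp only [pt, one_ne_zero, if_false, if_true] at e1 e2
  have key : ∀ c : ℤ, (c = 0 ∨ c = q) → (∀ k : Fin d, |v k - pt d c 0 k| ≤ r) →
      v ∈ ends d q r := by
    intro c hc h
    rcases hc with rfl | rfl
    · left
      intro k
      have := h k
      rw [pt_zero] at this
      simpa using this
    · right
      exact h
  have main : ∀ c c' b₁ b₁' : ℤ, (c = 0 ∨ c = q) → (∀ k, |v k - pt d c b₁ k| ≤ r) →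
      (∀ k, |v k - pt d c' b₁' k| ≤ r) → (0 ≤ b₁ ∧ b₁' ≤ 0 ∨ b₁ ≤ 0 ∧ 0 ≤ b₁') →
      v ∈ ends d q r := by
    intro c c' b₁ b₁' hc h h' hb
    apply key c hc
    intro k
    have g1 := h k
    have g2 := h' k
    unfold pt at g1 g2 ⊢
    split_ifs at g1 g2 ⊢ with h0 h1
    · exact g1
    · rw [abs_le] at g1 g2 ⊢
      rcases hb with hb | hb <;> constructor <;> omega
    · exact g1
  rcases hc with ⟨hc, _⟩ | hc
  · exact main a a' b b' hc hab hab' (Or.inl ⟨by omega, by omega⟩)
  · rcases hc' with ⟨hc', _⟩ | hc'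
    · exact main a' a b' b hc' hab' hab (Or.inr ⟨by omega, by omega⟩)
    · exfalso
      rw [abs_le] at e1 e2
      push_cast at hc hc'
      omega

section Measure

variable [MeasurableSpace T] (ν : Measure T) [IsProbabilityMeasure ν]

lemma measurable_tcol {F : (Site d → T) → (Site d → Fin 3)} (hF : Measurable F) (t0 : T) (r : ℕ) :
    Measurable (tcol F t0 r) := by
  unfold tcol
  refine (measurable_pi_apply 0).comp (hF.comp ?_)
  exact (measurable_glue (box d r)).comp (measurable_id.prodMk measurable_const)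

lemma bad_union (F : (Site d → T) → (Site d → Fin 3)) (t0 : T) (r : ℕ) (V : Finset (Site d)) :
    (iidLaw d ν) {ω | ∃ v ∈ V, fld F ω v ≠ tfld F t0 r ω v} ≤
      V.card * (iidLaw d ν) (errS F t0 r) := by
  have : {ω : Site d → T | ∃ v ∈ V, fld F ω v ≠ tfld F t0 r ω v} =
      ⋃ v ∈ V, (shift v) ⁻¹' (errS F t0 r) := by
    ext ω
    simp [errS, fld, tfld]
  rw [this]
  refine le_trans (measure_biUnion_finset_le _ _) ?_
  refine le_trans (sum_le_sum (fun v _ => pull (shift_mp ν v) _)) ?_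
  simp

variable {F : (Site d → T) → (Site d → Fin 3)}

lemma fld_eq (hF : IsFfiidColouring ν F) : ∀ᵐ ω ∂(iidLaw d ν), fld F ω = F ω := by
  have : ∀ᵐ ω ∂(iidLaw d ν), ∀ a : Site d, F (shift a ω) = shift a (F ω) :=
    ae_all_iff.2 hF.equivariant
  filter_upwards [this] with ω hω
  funext v
  simp only [fld, hω v]
  simp [shift]

lemma fld_proper (hF : IsFfiidColouring ν F) : ∀ᵐ ω ∂(iidLaw d ν), IsProper (fld F ω) := by
  filter_upwards [fld_eq ν hF, hF.proper] with ω h1 h2
  rwa [h1]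

lemma path_err (hd : 2 ≤ d) (hF : IsFfiidColouring ν F) (t0 : T) (r q s : ℕ) (ε : ℤ)
    (hε : |ε| = 1) :
    (iidLaw d ν) {ω | psum (tfld F t0 r ω) q s ε ≠ hgt (fld F ω) q} ≤
      ((2 * (s + 1) + (q + 1) : ℕ) : ℝ≥0∞) * (iidLaw d ν) (errS F t0 r) := by
  have h0 : (iidLaw d ν) {ω | ¬ IsProper (fld F ω)} = 0 := fld_proper ν hF
  have h1 := bad_union ν F t0 r (pathV d q s ε)
  have h2 : (iidLaw d ν) {ω | psum (tfld F t0 r ω) q s ε ≠ hgt (fld F ω) q} ≤
      (iidLaw d ν) ({ω | ∃ v ∈ pathV d q s ε, fld F ω v ≠ tfld F t0 r ω v} ∪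
        {ω | ¬ IsProper (fld F ω)}) := by
    apply measure_mono
    intro ω hω
    by_contra hcon
    simp only [Set.mem_union, Set.mem_ofPred_eq, not_or, not_exists, not_and, not_not] at hcon
    apply hω
    rw [← psum_eq hd hcon.2 q s ε hε]
    exact psum_congr (fun v hv => (hcon.1 v hv).symm)
  refine le_trans h2 (le_trans (measure_union_le _ _) ?_)
  rw [h0, add_zero]
  refine le_trans h1 ?_
  gcongr
  exact card_pathV q s ε

lemma measurable_psum (hF : Measurable F) (t0 : T) (r q s : ℕ) (ε : ℤ) :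
    Measurable (fun ω : Site d → T => psum (tfld F t0 r ω) q s ε) := by
  have h1 : ∀ v : Site d, Measurable (fun ω : Site d → T => tfld F t0 r ω v) := fun v =>
    (measurable_tcol hF t0 r).comp (measurable_pi_lambda _ (fun w => measurable_pi_apply (w + v)))
  have h2 : ∀ u v : Site d, Measurable (fun ω : Site d → T =>
      stp (tfld F t0 r ω u) (tfld F t0 r ω v)) := fun u v =>
    (measurable_of_countable (fun p : Fin 3 × Fin 3 => stp p.1 p.2)).comp
      ((h1 u).prodMk (h1 v))
  unfold psum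
  refine Measurable.sub (Measurable.add ?_ ?_) ?_ <;>
  exact Finset.measurable_sum _ (fun _ _ => h2 _ _)

/-- The height difference is, up to a small error, a function of the two end blocks. -/
lemma exists_D (hd : 2 ≤ d) (hF : IsFfiidColouring ν F) (t0 : T) (r q : ℕ) :
    ∃ D : (Site d → T) → (Site d → T) → ℤ,
      (∀ a a' b b', (∀ v ∈ box d r, a v = a' v) → (∀ v ∈ box d r, b v = b' v) →
        D a b = D a' b') ∧
      (iidLaw d ν) {ω | hgt (fld F ω) q ≠ D ω (shift (pt d q 0) ω)} ≤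
        3 * (((2 * (r + 1 + 1) + (q + 1) : ℕ) : ℝ≥0∞) * (iidLaw d ν) (errS F t0 r)) := by
  set P := iidLaw d ν with hP
  set M : ℝ≥0∞ := ((2 * (r + 1 + 1) + (q + 1) : ℕ) : ℝ≥0∞) * P (errS F t0 r) with hM
  have e1 := path_err ν hd hF t0 r q (r + 1) 1 (by norm_num)
  have e2 := path_err ν hd hF t0 r q (r + 1) (-1) (by norm_num)
  have e3 : P {ω | psum (tfld F t0 r ω) q (r + 1) 1 ≠ psum (tfld F t0 r ω) q (r + 1) (-1)} ≤
      M + M := by
    refine le_trans (measure_mono (t := _ ∪ _) ?_) (le_trans (measure_union_le _ _)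
      (add_le_add e1 e2))
    intro ω hω
    by_contra hcon
    simp only [Set.mem_union, Set.mem_ofPred_eq, not_or, not_not] at hcon
    exact hω (hcon.1.trans hcon.2.symm)
  set S : Set (Site d) := zone d q (r + 1) r 1 ∪ ends d q r with hS
  have e4 := le_trans (pull (glue_mp ν S) _) e3
  obtain ⟨u, hu⟩ := exists_section P P
    {x : (Site d → T) × (Site d → T) | psum (tfld F t0 r x.1) q (r + 1) 1 ≠
      psum (tfld F t0 r (glue (ends d q r) x.1 x.2)) q (r + 1) (-1)}
  have e5 : P {ω | psum (tfld F t0 r ω) q (r + 1) 1 ≠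
      psum (tfld F t0 r (glue (ends d q r) ω u)) q (r + 1) (-1)} ≤ M + M := by
    refine le_trans hu (le_trans (measure_mono ?_) e4)
    intro x hx
    simp only [Set.mem_preimage, Set.mem_ofPred_eq] at hx ⊢
    have g1 : psum (tfld F t0 r (glue S x.1 x.2)) q (r + 1) 1 =
        psum (tfld F t0 r x.1) q (r + 1) 1 :=
      psum_dep F t0 r q (r + 1) 1 (fun v hv => glue_mem (Or.inl hv))
    have g2 : psum (tfld F t0 r (glue S x.1 x.2)) q (r + 1) (-1) =
        psum (tfld F t0 r (glue (ends d q r) x.1 x.2)) q (r + 1) (-1) := by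
      apply psum_dep
      intro v hv
      by_cases hve : v ∈ ends d q r
      · rw [glue_mem hve, glue_mem (Or.inr hve : v ∈ S)]
      · have hvS : v ∉ S := by
          rintro (h | h)
          · exact hve (zone_inter hd h hv)
          · exact hve h
        rw [glue_not_mem hve, glue_not_mem hvS]
    rw [g1, g2]
    exact hx
  refine ⟨fun a b => psum (tfld F t0 r (glue (box d r) a
    (glue {v | v - pt d q 0 ∈ box d r} (shift (-pt d q 0) b) u))) q (r + 1) (-1), ?_, ?_⟩
  · intro a a' b b' ha hb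
    simp only
    congr 2
    funext v
    by_cases hv : v ∈ box d r
    · rw [glue_mem hv, glue_mem hv, ha v hv]
    · rw [glue_not_mem hv, glue_not_mem hv]
      by_cases hv2 : v ∈ {v | v - pt d q 0 ∈ box d r}
      · rw [glue_mem hv2, glue_mem hv2]
        have := hb _ hv2
        simpa [shift, sub_eq_add_neg] using this
      · rw [glue_not_mem hv2, glue_not_mem hv2]
  · have g : ∀ ω : Site d → T, glue (box d r) ω (glue {v | v - pt d q 0 ∈ box d r}
        (shift (-pt d q 0) (shift (pt d q 0) ω)) u) = glue (ends d q r) ω u := by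
      intro ω
      rw [shift_shift, neg_add_cancel, shift_zero]
      funext v
      by_cases hv : v ∈ box d r
      · rw [glue_mem hv, glue_mem (Or.inl hv : v ∈ ends d q r)]
      · rw [glue_not_mem hv]
        by_cases hv2 : v ∈ {v | v - pt d q 0 ∈ box d r}
        · rw [glue_mem hv2, glue_mem (Or.inr hv2 : v ∈ ends d q r)]
        · have : v ∉ ends d q r := by
            rintro (h | h)
            · exact hv h
            · exact hv2 h
          rw [glue_not_mem hv2, glue_not_mem this]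
    simp only [g]
    refine le_trans (measure_mono (t := _ ∪ _) ?_) (le_trans (measure_union_le _ _)
      (le_trans (add_le_add e1 e5) ?_))
    · intro ω hω
      by_contra hcon
      simp only [Set.mem_union, Set.mem_ofPred_eq, not_or, not_not] at hcon
      exact hω (hcon.1.symm.trans hcon.2)
    · rw [← hM]
      apply le_of_eq
      ring

end Measure

end Pool.Agent.TH964.FC
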