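import Mathlib
import Pool.Agent.TH964.FC.Upper

set_option autoImplicit false

/-!
The tail bound.
-/

namespace Pool.Agent.TH964.FC

open MeasureTheory Finset
open scoped ENNReal

variable {d : ℕ} {T : Type*}

lemma sep (hd : 2 ≤ d) {q r : ℕ} (hq : 2 * r + 1 ≤ q) {v : Site d} (hv : v ∈ box d r) :
    v + pt d q 0 ∉ box d r := by
  intro h
  have h1 := hv ⟨0, by omega⟩
  have h2 := h ⟨0, by omega⟩
  simp only [Pi.add_apply, pt, if_true] at h2
  rw [abs_le] at h1 h2
  omega

variable [MeasurableSpace T] (ν : Measure T) [IsProbabilityMeasure ν]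

variable {F : (Site d → T) → (Site d → Fin 3)}

/-- Two blocks. -/
noncomputable def two (d q r : ℕ) (x : (Site d → T) × (Site d → T)) : Site d → T :=
  glue (box d r) x.1 (shift (-pt d q 0) x.2)

lemma two_mp (q r : ℕ) : MeasurePreserving (two (T := T) d q r)
    ((iidLaw d ν).prod (iidLaw d ν)) (iidLaw d ν) :=
  (glue_mp ν (box d r)).comp ((MeasurePreserving.id _).prod (shift_mp ν (-pt d q 0)))

lemma two_fst (q r : ℕ) (x : (Site d → T) × (Site d → T)) {v : Site d} (hv : v ∈ box d r) :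
    two d q r x v = x.1 v := by
  unfold two
  rw [glue_mem hv]

lemma two_snd (hd : 2 ≤ d) {q r : ℕ} (hq : 2 * r + 1 ≤ q) (x : (Site d → T) × (Site d → T))
    {v : Site d} (hv : v ∈ box d r) : shift (pt d q 0) (two d q r x) v = x.2 v := by
  unfold two
  simp only [shift]
  rw [glue_not_mem (sep hd hq hv)]
  simp [shift]

/-- Three blocks. -/
noncomputable def three (d q₁ q₂ r : ℕ) (x : (Site d → T) × ((Site d → T) × (Site d → T))) :
    Site d → T :=
  glue (box d r) x.1 (shift (-pt d q₁ 0) (two d q₂ r x.2))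

lemma three_mp (q₁ q₂ r : ℕ) : MeasurePreserving (three (T := T) d q₁ q₂ r)
    ((iidLaw d ν).prod ((iidLaw d ν).prod (iidLaw d ν))) (iidLaw d ν) :=
  (glue_mp ν (box d r)).comp ((MeasurePreserving.id _).prod
    ((shift_mp ν (-pt d q₁ 0)).comp (two_mp ν q₂ r)))

lemma three_fst (q₁ q₂ r : ℕ) (x : (Site d → T) × ((Site d → T) × (Site d → T))) {v : Site d}
    (hv : v ∈ box d r) : three d q₁ q₂ r x v = x.1 v := by
  unfold three
  rw [glue_mem hv]

lemma three_snd (hd : 2 ≤ d) {q₁ q₂ r : ℕ} (hq : 2 * r + 1 ≤ q₁)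
    (x : (Site d → T) × ((Site d → T) × (Site d → T)))
    {v : Site d} (hv : v ∈ box d r) : shift (pt d q₁ 0) (three d q₁ q₂ r x) v = x.2.1 v := by
  unfold three
  simp only [shift]
  rw [glue_not_mem (sep hd hq hv)]
  simp only [shift, add_neg_cancel_right]
  exact two_fst q₂ r x.2 hv

lemma three_trd (hd : 2 ≤ d) {q₁ q₂ r : ℕ} (hq₁ : 2 * r + 1 ≤ q₁) (hq₂ : 2 * r + 1 ≤ q₂)
    (x : (Site d → T) × ((Site d → T) × (Site d → T)))
    {v : Site d} (hv : v ∈ box d r) :
    shift (pt d (q₁ + q₂ : ℕ) 0) (three d q₁ q₂ r x) v = x.2.2 v := by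
  have h1 := two_snd hd hq₂ x.2 hv
  rw [← h1]
  unfold three
  simp only [shift]
  rw [glue_not_mem (sep hd (by omega) hv)]
  have h2 : pt d ((q₁ + q₂ : ℕ) : ℤ) 0 = pt d q₁ 0 + pt d q₂ 0 := by
    rw [pt_add]; simp
  have h3 : v + pt d ((q₁ + q₂ : ℕ) : ℤ) 0 + -pt d q₁ 0 = v + pt d q₂ 0 := by
    rw [h2]; abel
  simp only [shift]
  rw [h3]

theorem tail (hd : 2 ≤ d) (hF : IsFfiidColouring ν F) (t0 : T) (r : ℕ) :
    (1 : ℝ≥0∞) / (1600 * (r + 1)) ≤ (iidLaw d ν) (errS F t0 r) := by
  by_contra hcon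
  push Not at hcon
  set P := iidLaw d ν with hP
  set e := P (errS F t0 r) with he
  have hδ : 50 * ((24 * r + 32) * e) < 1 := by
    have h1 : (1600 * ((r : ℝ≥0∞) + 1)) * e < 1 := by
      rw [ENNReal.lt_div_iff_mul_lt] at hcon
      · rwa [mul_comm]
      · left; simp
      · left
        exact ENNReal.mul_ne_top (by simp) (by simp)
    refine lt_of_le_of_lt ?_ h1
    rw [← mul_assoc]
    refine mul_le_mul' ?_ le_rfl
    have : ((50 * (24 * r + 32) : ℕ) : ℝ≥0∞) ≤ ((1600 * (r + 1) : ℕ) : ℝ≥0∞) := by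
      exact_mod_cast (by omega : 50 * (24 * r + 32) ≤ 1600 * (r + 1))
    push_cast at this ⊢
    exact this
  choose D hD1 hD2 using fun q => exists_D ν hd hF t0 r q
  have hb : ∀ q : ℕ, q ≤ 3 * (2 * r + 1) + 2 → 3 * (((2 * (r + 1 + 1) + (q + 1) : ℕ) : ℝ≥0∞) * e) ≤
      (24 * r + 30) * e := by
    intro q hq
    rw [← mul_assoc]
    gcongr
    have : ((3 * (2 * (r + 1 + 1) + (q + 1)) : ℕ) : ℝ≥0∞) ≤ ((24 * r + 30 : ℕ) : ℝ≥0∞) := by
      exact_mod_cast (by omega : 3 * (2 * (r + 1 + 1) + (q + 1)) ≤ 24 * r + 30)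
    push_cast at this ⊢
    exact this
  have hb' : ((24 : ℝ≥0∞) * r + 30) * e ≤ (24 * r + 32) * e := by
    gcongr; norm_num
  have hD3 : ∀ q : ℕ, q ≤ 3 * (2 * r + 1) + 2 →
      P {ω | hgt (fld F ω) q ≠ D q ω (shift (pt d q 0) ω)} ≤ (24 * r + 30) * e := fun q hq =>
    le_trans (hD2 q) (hb q hq)
  refine core P D (fun a => ((tcol F t0 r a).val : ℤ)) (2 * r + 1) ((24 * r + 32) * e) hδ
    ?_ ?_ ?_ ?_
  · intro q₁ q₂ h1 h2 h12
    have e1 := hD3 (q₁ + q₂) h12
    have e2 := hD3 q₁ (by omega)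
    have e3 := le_trans (pull (shift_mp ν (pt d q₁ 0)) _) (hD3 q₂ (by omega))
    have e4 := le_trans (measure_union_le _ _) (add_le_add (le_trans (measure_union_le _ _)
      (add_le_add e1 e2)) e3)
    have e5 := le_trans (pull (three_mp ν q₁ q₂ r) _) e4
    refine le_trans (measure_mono ?_) (le_trans e5 ?_)
    · intro x hx
      by_contra hcon2
      simp only [Set.mem_union, Set.mem_preimage, Set.mem_ofPred_eq, not_or, not_not] at hcon2
      obtain ⟨⟨c1, c2⟩, c3⟩ := hcon2
      apply hx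
      rw [hgt_add, ← fld_shift, c2, c3, shift_shift] at c1
      have e6 : pt d q₂ 0 + pt d q₁ 0 = pt d ((q₁ + q₂ : ℕ) : ℤ) 0 := by
        rw [pt_add]; push_cast; simp [add_comm]
      rw [e6] at c1
      rw [hD1 (q₁ + q₂) _ x.1 _ x.2.2 (fun v hv => three_fst q₁ q₂ r x hv)
        (fun v hv => three_trd hd h1 h2 x hv),
        hD1 q₁ _ x.1 _ x.2.1 (fun v hv => three_fst q₁ q₂ r x hv)
        (fun v hv => three_snd hd h1 x hv),
        hD1 q₂ _ x.2.1 _ x.2.2 (fun v hv => three_snd hd h1 x hv)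
        (fun v hv => three_trd hd h1 h2 x hv)] at c1
      exact c1.symm
    · have : ((24 : ℝ≥0∞) * r + 30) * e + (24 * r + 30) * e + (24 * r + 30) * e =
          3 * ((24 * r + 30) * e) := by ring
      rw [this]
      gcongr
  · intro q h1 h2
    have e1 := hD3 q h2
    have e2 : P (errS F t0 r) ≤ e := le_rfl
    have e3 := le_trans (pull (shift_mp ν (pt d q 0)) _) e2
    have e4 := le_trans (measure_union_le _ _) (add_le_add (le_trans (measure_union_le _ _)
      (add_le_add e1 e2)) e3)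
    have e5 := le_trans (pull (two_mp ν q r) _) e4
    refine le_trans (measure_mono ?_) (le_trans e5 ?_)
    · intro x hx
      by_contra hcon2
      simp only [Set.mem_union, Set.mem_preimage, Set.mem_ofPred_eq, not_or, not_not, errS]
        at hcon2
      obtain ⟨⟨c1, c2⟩, c3⟩ := hcon2
      apply hx
      have g := hgt_mod (fld F (two d q r x)) q
      rw [c1, hD1 q _ x.1 _ x.2 (fun v hv => two_fst q r x hv)
        (fun v hv => two_snd hd h1 x hv)] at g
      have g1 : fld F (two d q r x) (pt d q 0) = tcol F t0 r x.2 := by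
        simp only [fld]
        rw [c3]
        exact tcol_dep F t0 r (fun v hv => two_snd hd h1 x hv)
      have g2 : fld F (two d q r x) 0 = tcol F t0 r x.1 := by
        simp only [fld, shift_zero]
        rw [c2]
        exact tcol_dep F t0 r (fun v hv => two_fst q r x hv)
      rw [g1, g2] at g
      exact g
    · apply le_of_eq
      ring
  · intro q h1 h2
    have e1 := hD3 q h2
    have e2 : P {ω | ¬ IsProper (fld F ω)} ≤ 0 := le_of_eq (fld_proper ν hF)
    have e4 := le_trans (measure_union_le _ _) (add_le_add e1 e2)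
    have e5 := le_trans (pull (two_mp ν q r) _) e4
    refine le_trans (measure_mono ?_) (le_trans e5 ?_)
    · intro x hx
      by_contra hcon2
      simp only [Set.mem_union, Set.mem_preimage, Set.mem_ofPred_eq, not_or, not_not]
        at hcon2
      obtain ⟨c1, c2⟩ := hcon2
      apply hx
      have g := hgt_par hd c2 q
      rw [c1, hD1 q _ x.1 _ x.2 (fun v hv => two_fst q r x hv)
        (fun v hv => two_snd hd h1 x hv)] at g
      exact g
    · rw [add_zero]
      exact hb'
  · intro q h1 h2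
    have e1 := hD3 q h2
    have e5 := le_trans (pull (two_mp ν q r) _) e1
    refine le_trans (measure_mono ?_) (le_trans e5 hb')
    intro x hx
    by_contra hcon2
    simp only [Set.mem_preimage, Set.mem_ofPred_eq, not_not] at hcon2
    apply hx
    have g := hgt_abs (fld F (two d q r x)) q
    rw [hcon2, hD1 q _ x.1 _ x.2 (fun v hv => two_fst q r x hv)
        (fun v hv => two_snd hd h1 x hv)] at g
    exact g

end Pool.Agent.TH964.FC
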