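import Mathlib
import Pool.Agent.TH964.FC.Tail

set_option autoImplicit false

/-!
The coding radius of a finitary 3-colouring of `ℤ^d` has infinite mean.
-/

namespace Pool.Agent.TH964.FC

open MeasureTheory Finset
open scoped ENNReal

variable {d : ℕ} {T : Type*}

lemma errS_le {F : (Site d → T) → (Site d → Fin 3)} {t0 : T} {r : ℕ} {ω : Site d → T}
    (h : ω ∈ errS F t0 r) : ((r + 1 : ℕ) : ℕ∞) ≤ codingRadius F ω := by
  refine le_iInf₂ (fun r' h' => ?_)
  rw [Nat.cast_le]
  by_contra hcon
  apply h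
  refine (h' _ (fun v hv => glue_mem (fun k => ?_))).symm
  have h1 : |v k| ≤ ∑ i, |v i| := single_le_sum (f := fun i => |v i|)
    (fun i _ => abs_nonneg _) (mem_univ k)
  push Not at hcon
  have : (r' : ℤ) ≤ r := by exact_mod_cast (by omega : r' ≤ r)
  linarith

lemma sum_errS_le (F : (Site d → T) → (Site d → Fin 3)) (t0 : T) (ω : Site d → T) :
    ∑' r : ℕ, (errS F t0 r).indicator (fun _ => (1 : ℝ≥0∞)) ω ≤
      ((codingRadius F ω : ℕ∞) : ℝ≥0∞) := by
  by_cases htop : codingRadius F ω = ⊤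
  · rw [htop]; simp
  · obtain ⟨n, hn⟩ := ENat.ne_top_iff_exists.1 htop
    rw [← hn]
    rw [tsum_eq_sum (s := range n)]
    · refine le_trans (sum_le_sum (g := fun _ => (1 : ℝ≥0∞)) (fun r _ => ?_)) ?_
      · exact Set.indicator_le_self' (fun _ _ => zero_le_one) _ 
      · simp
    · intro r hr
      rw [Set.indicator_of_notMem]
      intro hmem
      have := errS_le hmem
      rw [← hn, Nat.cast_le] at this
      rw [mem_range] at hr
      omega

lemma harmonic_top : ∑' r : ℕ, (1 : ℝ≥0∞) / (1600 * (r + 1)) = ⊤ := by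
  by_contra h
  have h1 := ENNReal.summable_toReal h
  have h2 : Summable (fun r : ℕ => (1 : ℝ) / ((r + 1 : ℕ) : ℝ)) := by
    have h3 := h1.mul_left 1600
    refine h3.congr (fun r => ?_)
    have : ((1600 : ℝ≥0∞) * ((r : ℝ≥0∞) + 1)) = ENNReal.ofReal (1600 * (r + 1)) := by
      rw [ENNReal.ofReal_mul (by norm_num), ENNReal.ofReal_add (by positivity) (by norm_num)]
      simp
    rw [this, ENNReal.toReal_div, ENNReal.toReal_ofReal (by positivity)]
    push_cast
    field_simp
    simp
  exact Real.not_summable_one_div_natCast ((summable_nat_add_iff 1).1 h2)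

section

variable [MeasurableSpace T] (ν : Measure T) [IsProbabilityMeasure ν]
variable {F : (Site d → T) → (Site d → Fin 3)}

lemma measurableSet_errS (hF : Measurable F) (t0 : T) (r : ℕ) : MeasurableSet (errS F t0 r) := by
  have h1 : Measurable (fun ω : Site d → T => F ω 0) := (measurable_pi_apply 0).comp hF
  exact (measurableSet_eq_fun h1 (measurable_tcol hF t0 r)).compl

theorem lintegral_top (hd : 2 ≤ d) (hF : IsFfiidColouring ν F) {α : ℝ} (hα : 1 ≤ α) :
    ∫⁻ ω, ((codingRadius F ω : ℕ∞) : ℝ≥0∞) ^ α ∂(iidLaw d ν) = ⊤ := by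
  have hne : Nonempty T := by
    by_contra h
    rw [not_nonempty_iff] at h
    have : ν Set.univ = 0 := by
      rw [Set.univ_eq_empty_iff.2 h, measure_empty]
    rw [measure_univ] at this
    exact one_ne_zero this
  obtain ⟨t0⟩ := hne
  rw [eq_top_iff, ← harmonic_top]
  refine le_trans (ENNReal.tsum_le_tsum (fun r => tail ν hd hF t0 r)) ?_
  have h1 : ∀ r, (iidLaw d ν) (errS F t0 r) =
      ∫⁻ ω, (errS F t0 r).indicator (fun _ => (1 : ℝ≥0∞)) ω ∂(iidLaw d ν) := by
    intro r
    rw [lintegral_indicator (measurableSet_errS hF.measurable t0 r)]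
    simp
  simp only [h1]
  rw [← lintegral_tsum (fun r => (measurable_const.indicator
    (measurableSet_errS hF.measurable t0 r)).aemeasurable)]
  refine lintegral_mono (fun ω => le_trans (sum_errS_le F t0 ω) ?_)
  rcases eq_or_ne (codingRadius F ω) 0 with h0 | h0
  · rw [h0]; simp
  · have h2 : (1 : ℝ≥0∞) ≤ ((codingRadius F ω : ℕ∞) : ℝ≥0∞) := by
      have : (1 : ℕ∞) ≤ codingRadius F ω := Order.one_le_iff_ne_zero.2 h0
      exact_mod_cast this
    have := ENNReal.rpow_le_rpow_of_exponent_le h2 hα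
    rwa [ENNReal.rpow_one] at this

/-- The tail bound for the coding radius. -/
theorem tail_radius (hd : 2 ≤ d) (hF : IsFfiidColouring ν F) (r : ℕ) :
    ∃ B : Set (Site d → T), MeasurableSet B ∧
      (∀ ω ∈ B, ((r + 1 : ℕ) : ℕ∞) ≤ codingRadius F ω) ∧
      (1 : ℝ≥0∞) / (1600 * (r + 1)) ≤ (iidLaw d ν) B := by
  have hne : Nonempty T := by
    by_contra h
    rw [not_nonempty_iff] at h
    have : ν Set.univ = 0 := by
      rw [Set.univ_eq_empty_iff.2 h, measure_empty]
    rw [measure_univ] at this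
    exact one_ne_zero this
  obtain ⟨t0⟩ := hne
  exact ⟨errS F t0 r, measurableSet_errS hF.measurable t0 r, fun ω hω => errS_le hω,
    tail ν hd hF t0 r⟩

end

end Pool.Agent.TH964.FC
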